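import Pool.Agent.Y801.LG.Few

/-! Continuous `ℓ`-adic representations over number fields, not assumed semisimple. -/

set_option autoImplicit false
set_option linter.all false

namespace Pool.Agent.Y801.LG

open Module MeasureTheory Topology Filter NumberField IsDedekindDomain Pool.Agent.Y800 Polynomial
open Pool.Agent.W401.Cheb Pool.Agent.W528.Ord Pool.Agent.Y802

section cont

theorem closed_functional {G : Type*} [Group G] [TopologicalSpace G] {k : Type*} [Field k] [TopologicalSpace k]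
    [IsTopologicalRing k] [T1Space k] {n : ℕ} (ρ : G →* GL (Fin n) k)
    (hρ : Continuous fun g => (ρ g : Matrix (Fin n) (Fin n) k))
    (l : Matrix (Fin n) (Fin n) k →ₗ[k] k) (t : k) :
    IsClosed {g : G | l (ρ g : Matrix (Fin n) (Fin n) k) = t} := by
  have h1 : Continuous fun g => l (ρ g : Matrix (Fin n) (Fin n) k) := by
    have e : (fun g => l (ρ g : Matrix (Fin n) (Fin n) k)) = fun g => ∑ i, ∑ j,
        (ρ g : Matrix (Fin n) (Fin n) k) i j * l (Matrix.single i j 1) := by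
      ext g
      conv_lhs => rw [Matrix.matrix_eq_sum_single (ρ g : Matrix (Fin n) (Fin n) k)]
      rw [map_sum]
      refine Finset.sum_congr rfl fun i _ => ?_
      rw [map_sum]
      refine Finset.sum_congr rfl fun j _ => ?_
      rw [← smul_eq_mul, ← map_smul, Matrix.smul_single, smul_eq_mul, mul_one]
    rw [e]
    refine continuous_finset_sum _ fun i _ => continuous_finset_sum _ fun j _ => ?_
    exact (hρ.matrix_elem i j).mul continuous_const
  exact isClosed_singleton.preimage h1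

end cont

section ext

open IntermediateField

variable {ℓ : ℕ} [Fact ℓ.Prime]

/-- a continuous representation of a compact group is defined over a finite extension of `ℚ_ℓ` -/
theorem finite_field {G : Type*} [Group G] [TopologicalSpace G] [IsTopologicalGroup G] [CompactSpace G]
    [T2Space G] {n : ℕ} (ρ : G →* GL (Fin n) (PadicAlgCl ℓ)) (hρ : Continuous ρ) :
    ∃ E : IntermediateField ℚ_[ℓ] (PadicAlgCl ℓ), FiniteDimensional ℚ_[ℓ] E ∧
      ∀ g i j, (ρ g : Matrix (Fin n) (Fin n) (PadicAlgCl ℓ)) i j ∈ E := by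
  classical
  have hc0 : Continuous fun g => (ρ g : Matrix (Fin n) (Fin n) (PadicAlgCl ℓ)) :=
    Units.continuous_val.comp hρ
  have hc : ∀ i j, Continuous fun g => (ρ g : Matrix (Fin n) (Fin n) (PadicAlgCl ℓ)) i j := fun i j =>
    hc0.matrix_elem i j
  let f : G → (Fin n → Fin n → PadicAlgCl ℓ) := fun g i j =>
    (ρ g : Matrix (Fin n) (Fin n) (PadicAlgCl ℓ)) i j
  have hf : Continuous f := continuous_pi fun i => continuous_pi fun j => hc i j
  obtain ⟨D, hD, hfD⟩ := (isCompact_range hf).isSeparable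
  have hT : {z : PadicAlgCl ℓ | ∃ d ∈ D, ∃ i j, d i j = z}.Countable := by
    have : {z : PadicAlgCl ℓ | ∃ d ∈ D, ∃ i j, d i j = z} = ⋃ d ∈ D, ⋃ i, ⋃ j, {d i j} := by
      ext z
      simp only [Set.mem_setOf_eq, Set.mem_iUnion, Set.mem_singleton_iff, exists_prop]
      constructor
      · rintro ⟨d, hd, i, j, h⟩; exact ⟨d, hd, i, j, h.symm⟩
      · rintro ⟨d, hd, i, j, h⟩; exact ⟨d, hd, i, j, h.symm⟩
    rw [this]
    exact hD.biUnion fun d _ => Set.countable_iUnion fun i => Set.countable_iUnion fun j =>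
      Set.countable_singleton _
  obtain ⟨t, ht⟩ : ∃ t : ℕ → PadicAlgCl ℓ, {z : PadicAlgCl ℓ | ∃ d ∈ D, ∃ i j, d i j = z} ⊆ Set.range t := by
    rcases Set.eq_empty_or_nonempty {z : PadicAlgCl ℓ | ∃ d ∈ D, ∃ i j, d i j = z} with h | h
    · rw [h]; exact ⟨fun _ => 0, Set.empty_subset _⟩
    · obtain ⟨t, ht⟩ := hT.exists_eq_range h
      exact ⟨t, ht.le⟩
  let K : ℕ → IntermediateField ℚ_[ℓ] (PadicAlgCl ℓ) := fun m => adjoin ℚ_[ℓ] (t '' Set.Iio m)
  have hK : Monotone K := fun a b hab => adjoin.mono _ _ _ (Set.image_mono (Set.Iio_subset_Iio hab))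
  have hKfin : ∀ m, FiniteDimensional ℚ_[ℓ] (K m) := by
    intro m
    haveI : Finite (t '' Set.Iio m) := ((Set.finite_Iio m).image t).to_subtype
    exact finiteDimensional_adjoin fun x _ => Algebra.IsIntegral.isIntegral x
  have hmemK : ∀ z, z ∈ (⨆ m, K m : IntermediateField ℚ_[ℓ] (PadicAlgCl ℓ)) → ∃ m, z ∈ K m := by
    intro z hz
    rw [← SetLike.mem_coe, coe_iSup_of_directed hK.directed_le] at hz
    exact Set.mem_iUnion.1 hz
  have hL : ∀ g i j, (ρ g : Matrix (Fin n) (Fin n) (PadicAlgCl ℓ)) i j ∈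
      (⨆ m, K m : IntermediateField ℚ_[ℓ] (PadicAlgCl ℓ)) := by
    intro g i j
    have h1 : IsClosed {d : Fin n → Fin n → PadicAlgCl ℓ | d i j ∈
        ((⨆ m, K m : IntermediateField ℚ_[ℓ] (PadicAlgCl ℓ)) : Set (PadicAlgCl ℓ))} :=
      (isClosed_field _).preimage (continuous_apply_apply i j)
    have h2 : D ⊆ {d : Fin n → Fin n → PadicAlgCl ℓ | d i j ∈
        ((⨆ m, K m : IntermediateField ℚ_[ℓ] (PadicAlgCl ℓ)) : Set (PadicAlgCl ℓ))} := by
      intro d hd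
      obtain ⟨m, hm⟩ := ht ⟨d, hd, i, j, rfl⟩
      have h3 : d i j ∈ K (m + 1) := by
        rw [← hm]
        exact subset_adjoin _ _ ⟨m, Nat.lt_succ_self m, rfl⟩
      exact le_iSup K (m + 1) h3
    exact closure_minimal h2 h1 (hfD ⟨g, rfl⟩)
  -- Baire
  have hbaire : ∃ m, (interior {g : G | ∀ i j, (ρ g : Matrix (Fin n) (Fin n) (PadicAlgCl ℓ)) i j ∈ K m}).Nonempty := by
    refine nonempty_interior_of_iUnion_of_closed (fun m => ?_) ?_
    · have : {g : G | ∀ i j, (ρ g : Matrix (Fin n) (Fin n) (PadicAlgCl ℓ)) i j ∈ K m} =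
          ⋂ i, ⋂ j, {g : G | (ρ g : Matrix (Fin n) (Fin n) (PadicAlgCl ℓ)) i j ∈ (K m : Set (PadicAlgCl ℓ))} := by
        ext g
        simp only [Set.mem_setOf_eq, Set.mem_iInter, SetLike.mem_coe]
      rw [this]
      exact isClosed_iInter fun i => isClosed_iInter fun j => (isClosed_field _).preimage (hc i j)
    · rw [Set.eq_univ_iff_forall]
      intro g
      choose m hm using fun i j => hmemK _ (hL g i j)
      rw [Set.mem_iUnion]
      refine ⟨Finset.univ.sup fun i => Finset.univ.sup (m i), fun i j => ?_⟩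
      refine hK ?_ (hm i j)
      exact (Finset.le_sup (f := m i) (Finset.mem_univ j)).trans
        (Finset.le_sup (f := fun i => Finset.univ.sup (m i)) (Finset.mem_univ i))
  obtain ⟨m, hm⟩ := hbaire
  obtain ⟨s, hs⟩ := compact_covered_by_mul_left_translates (isCompact_univ (X := G)) hm
  choose m' hm' using fun (g : G) i j => hmemK _ (hL g⁻¹ i j)
  set M : ℕ := max m (s.sup fun g => Finset.univ.sup fun i => Finset.univ.sup (m' g i)) with hM
  refine ⟨K M, hKfin M, fun x => ?_⟩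
  have hx := hs (Set.mem_univ x)
  simp only [Set.mem_iUnion, Set.mem_preimage, Set.mem_setOf_eq] at hx
  obtain ⟨g, hg, hgx⟩ := hx
  have h1 : ∀ i j, (ρ g⁻¹ : Matrix (Fin n) (Fin n) (PadicAlgCl ℓ)) i j ∈ K M := by
    intro i j
    refine hK ?_ (hm' g i j)
    refine le_trans ?_ (le_max_right _ _)
    refine le_trans ?_ (Finset.le_sup (f := fun g => Finset.univ.sup fun i => Finset.univ.sup (m' g i)) hg)
    exact (Finset.le_sup (f := m' g i) (Finset.mem_univ j)).trans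
      (Finset.le_sup (f := fun i => Finset.univ.sup (m' g i)) (Finset.mem_univ i))
  have h2 : ∀ i j, (ρ (g * x) : Matrix (Fin n) (Fin n) (PadicAlgCl ℓ)) i j ∈ K M := fun i j =>
    hK (le_max_left _ _) (hgx i j)
  have h3 : (ρ x : Matrix (Fin n) (Fin n) (PadicAlgCl ℓ)) =
      (ρ g⁻¹ : Matrix (Fin n) (Fin n) (PadicAlgCl ℓ)) * (ρ (g * x) : Matrix (Fin n) (Fin n) (PadicAlgCl ℓ)) := by
    rw [← Units.val_mul, ← map_mul, inv_mul_cancel_left]
  intro i j
  rw [h3, Matrix.mul_apply]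
  exact sum_mem fun l _ => mul_mem (h1 i l) (h2 l j)

/-- the eigenvalues of matrices over `E` have bounded degree over `ℚ_ℓ` -/
theorem root_degree (E : IntermediateField ℚ_[ℓ] (PadicAlgCl ℓ)) [FiniteDimensional ℚ_[ℓ] E] {n : ℕ}
    (A : Matrix (Fin n) (Fin n) (PadicAlgCl ℓ)) (hA : ∀ i j, A i j ∈ E) (z : PadicAlgCl ℓ)
    (hz : z ∈ A.charpoly.roots) :
    ∃ f : ℚ_[ℓ][X], f ≠ 0 ∧ f.natDegree ≤ finrank ℚ_[ℓ] E * n ∧ aeval z f = 0 := by
  classical
  let B : Matrix (Fin n) (Fin n) E := fun i j => ⟨A i j, hA i j⟩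
  have hB : A = B.map (algebraMap E (PadicAlgCl ℓ)) := by ext i j; rfl
  have hz1 : aeval z B.charpoly = 0 := by
    rw [hB, Matrix.charpoly_map] at hz
    have h2 := (mem_roots'.1 hz).2
    rwa [IsRoot.def, eval_map_algebraMap] at h2
  have hint : IsIntegral ℚ_[ℓ] z := Algebra.IsIntegral.isIntegral z
  have hintE : IsIntegral E z := ⟨B.charpoly, B.charpoly_monic, hz1⟩
  refine ⟨minpoly ℚ_[ℓ] z, minpoly.ne_zero hint, ?_, minpoly.aeval _ _⟩
  haveI : FiniteDimensional E E⟮z⟯ := adjoin.finiteDimensional hintE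
  have hd : finrank E E⟮z⟯ ≤ n := by
    rw [adjoin.finrank hintE]
    refine (natDegree_le_of_dvd (minpoly.dvd _ _ hz1) B.charpoly_monic.ne_zero).trans ?_
    rw [Matrix.charpoly_natDegree_eq_dim, Fintype.card_fin]
  haveI : FiniteDimensional ℚ_[ℓ] E⟮z⟯ := FiniteDimensional.trans ℚ_[ℓ] E E⟮z⟯
  let F' : IntermediateField ℚ_[ℓ] (PadicAlgCl ℓ) := E⟮z⟯.restrictScalars ℚ_[ℓ]
  have hzF : z ∈ F' := mem_adjoin_simple_self E z
  haveI hfF : FiniteDimensional ℚ_[ℓ] F' := (inferInstance : FiniteDimensional ℚ_[ℓ] E⟮z⟯)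
  have e1 : minpoly ℚ_[ℓ] (⟨z, hzF⟩ : F') = minpoly ℚ_[ℓ] z := minpoly_eq (⟨z, hzF⟩ : F')
  rw [← e1]
  refine (minpoly.natDegree_le _).trans ?_
  have e2 : finrank ℚ_[ℓ] F' = finrank ℚ_[ℓ] E * finrank E E⟮z⟯ := (finrank_mul_finrank ℚ_[ℓ] E E⟮z⟯).symm
  rw [e2]
  exact Nat.mul_le_mul_left _ hd

/-- eigenvalues which are roots of unity have bounded order; so the sums are in a finite set -/
theorem exists_T (E : IntermediateField ℚ_[ℓ] (PadicAlgCl ℓ)) [FiniteDimensional ℚ_[ℓ] E] (n : ℕ) :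
    ∃ T : Finset (PadicAlgCl ℓ), (0 : PadicAlgCl ℓ) ∉ T ∧ ∀ A : Matrix (Fin n) (Fin n) (PadicAlgCl ℓ),
      (∀ i j, A i j ∈ E) → (∀ z ∈ A.charpoly.roots, ∃ m : ℕ, 0 < m ∧ z ^ m = 1) →
      (∀ s : Multiset (PadicAlgCl ℓ), s ≤ A.charpoly.roots → s ≠ 0 → s.sum ≠ 0) → SubT T A := by
  classical
  set M : ℕ := (ℓ ^ (2 * (finrank ℚ_[ℓ] E * n))).factorial with hM
  have hMpos : 0 < M := Nat.factorial_pos _
  let R : Finset (PadicAlgCl ℓ) := nthRootsFinset M (1 : PadicAlgCl ℓ)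
  refine ⟨(((n • R.val).powerset.map Multiset.sum).toFinset).erase 0, Finset.notMem_erase _ _, ?_⟩
  intro A hA hroot hsum s hs hs0
  rw [Finset.mem_erase]
  refine ⟨hsum s hs hs0, ?_⟩
  rw [Multiset.mem_toFinset, Multiset.mem_map]
  refine ⟨s, ?_, rfl⟩
  rw [Multiset.mem_powerset, Multiset.le_iff_count]
  intro z
  by_cases hz : z ∈ s
  · have hz' := Multiset.mem_of_le hs hz
    obtain ⟨m, hm, hzm⟩ := hroot z hz'
    obtain ⟨f, hf0, hfd, hfz⟩ := root_degree E A hA z hz'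
    have h2 := order_le (p := ℓ) (Ω := PadicAlgCl ℓ) hm hzm hf0 hfd hfz
    have h3 : 0 < orderOf z := (isOfFinOrder_iff_pow_eq_one.2 ⟨m, hm, hzm⟩).orderOf_pos
    have h4 : orderOf z ∣ M := Nat.dvd_factorial h3 h2
    have h5 : z ∈ R := (mem_nthRootsFinset hMpos _).2 (orderOf_dvd_iff_pow_eq_one.1 h4)
    have h6 : Multiset.count z R.val = 1 := Multiset.count_eq_one_of_mem R.nodup h5
    rw [Multiset.count_nsmul, h6, mul_one]
    calc Multiset.count z s ≤ Multiset.card s := Multiset.count_le_card _ _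
      _ ≤ Multiset.card A.charpoly.roots := Multiset.card_le_card hs
      _ = n := card_roots_charpoly A
  · rw [Multiset.count_eq_zero_of_notMem hz]
    exact Nat.zero_le _

end ext

section nf

variable {K : Type} [Field K] [NumberField K] {n : ℕ}

theorem NFunipA {ℓ : ℕ} [Fact ℓ.Prime] (ρ : GK K →* GL (Fin n) (PadicAlgCl ℓ)) (hρ : Continuous ρ)
    (P : HeightOneSpectrum (𝓞 K) → Prop) (hP : NotNull P)
    (h : ∀ v, P v → ∃ σ, IsFrob v σ ∧
      (∀ z ∈ (ρ σ : Matrix (Fin n) (Fin n) (PadicAlgCl ℓ)).charpoly.roots, ∃ m : ℕ, 0 < m ∧ z ^ m = 1) ∧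
      (∀ s : Multiset (PadicAlgCl ℓ), s ≤ (ρ σ : Matrix (Fin n) (Fin n) (PadicAlgCl ℓ)).charpoly.roots →
        s ≠ 0 → s.sum ≠ 0)) :
    ∃ U : OpenNormalSubgroup (GK K), ∀ u ∈ U.toSubgroup,
      (ρ u : Matrix (Fin n) (Fin n) (PadicAlgCl ℓ)).charpoly = (X - 1) ^ n := by
  classical
  obtain ⟨mm, hb, μ, hμ1, hμ2, hμ3⟩ := exists_haarK (K := K)
  obtain ⟨E, hE, hρE⟩ := finite_field ρ hρ
  obtain ⟨T, hT0, hT⟩ := exists_T E n
  choose! f hf1 hf2 hf3 using h
  refine unip_A μ T hT0 (f '' {v | P v}) (fun C hC hconj hsub => ?_) n ρ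
    (fun l t => closed_functional ρ (Units.continuous_val.comp hρ) l t) ?_
  · exact measure_ne_zero μ C hC hconj P hP fun v hv => ⟨f v, hsub ⟨v, hv, rfl⟩, hf1 v hv⟩
  · rintro _ ⟨v, hv, rfl⟩
    exact hT _ (hρE _) (hf2 v hv) (hf3 v hv)

theorem NFunipB {k : Type} [Field k] [CharZero k] [TopologicalSpace k] [IsTopologicalRing k] [T1Space k]
    (ρ : GK K →* GL (Fin n) k) (hρ : Continuous ρ) (T : Finset k)
    (P : HeightOneSpectrum (𝓞 K) → Prop) (c : ℝ) (hc : 1 - 1 / (n : ℝ) ^ 2 < c) (hn : 0 < n)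
    (hP : ∃ᶠ N in atTop, c ≤ dens P N)
    (h : ∀ v, P v → ∃ σ, IsFrob v σ ∧ (ρ σ : Matrix (Fin n) (Fin n) k).trace ∈ T) :
    ∃ U : OpenNormalSubgroup (GK K), ∀ u ∈ U.toSubgroup,
      (ρ u : Matrix (Fin n) (Fin n) k).charpoly = (X - 1) ^ n := by
  classical
  obtain ⟨mm, hb, μ, hμ1, hμ2, hμ3⟩ := exists_haarK (K := K)
  have hcl := fun l t => closed_functional ρ (Units.continuous_val.comp hρ) l t
  set Z : Set (GK K) := {g | (ρ g : Matrix (Fin n) (Fin n) k).trace ∈ T} with hZ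
  have hZc : IsClosed Z := by
    have e : Z = ⋃ t ∈ T, {g : GK K | (ρ g : Matrix (Fin n) (Fin n) k).trace = t} := by
      ext x
      simp [hZ]
    rw [e]
    exact T.finite_toSet.isClosed_biUnion fun t _ => hcl (Matrix.traceLinearMap (Fin n) k k) t
  have hconj : ∀ σ ∈ Z, ∀ τ : GK K, τ * σ * τ⁻¹ ∈ Z := by
    intro σ hσ τ
    show (ρ (τ * σ * τ⁻¹) : Matrix (Fin n) (Fin n) k).trace ∈ T
    rw [map_mul, map_mul, map_inv, Units.val_mul, Units.val_mul, Matrix.trace_mul_comm, ← mul_assoc,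
      ← Units.val_mul, inv_mul_cancel, Units.val_one, one_mul]
    exact hσ
  have hn' : (0 : ℝ) < (n : ℝ) ^ 2 := by positivity
  have hn1 : 1 / (n : ℝ) ^ 2 ≤ 1 := by
    rw [div_le_one hn']
    have : (1 : ℝ) ≤ n := by exact_mod_cast hn
    nlinarith
  refine unip_B μ ρ hcl T (1 - c) ?_ ?_
  · by_contra hlt
    push Not at hlt
    rw [sub_sub_cancel] at hlt
    have h2 := dens_lt μ Z hZc hconj c (by linarith) hlt
    obtain ⟨N, hN1, hN2⟩ := (hP.and_eventually h2).exists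
    refine absurd (hN1.trans (dens_mono (fun v hv => ?_) N)) (not_le.2 hN2)
    obtain ⟨σ, h1, h2⟩ := h v hv
    exact ⟨σ, h2, h1⟩
  · have h1 : 1 - c < 1 / (n : ℝ) ^ 2 := by linarith
    rwa [lt_div_iff₀ hn', mul_comm] at h1

/-- every coset of an open normal subgroup contains a conjugate of a Frobenius element -/
theorem exists_frobK (U : OpenNormalSubgroup (GK K)) (S : Set (HeightOneSpectrum (𝓞 K))) (hS : S.Finite)
    (g : GK K) : ∃ v ∉ S, ∃ σ, IsFrob v σ ∧ ∃ τ : GK K, τ * σ * τ⁻¹ * g⁻¹ ∈ U.toSubgroup := by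
  by_contra hcon
  push Not at hcon
  have hUo : IsOpen (U.toSubgroup : Set (GK K)) := U.isOpen'
  haveI hn : U.toSubgroup.Normal := U.isNormal'
  haveI hfin : Finite (GK K ⧸ U.toSubgroup) := Subgroup.quotient_finite_of_isOpen _ hUo
  set C : Set (GK K) := {x | ∃ τ : GK K, τ * x * τ⁻¹ * g⁻¹ ∈ U.toSubgroup} with hC
  have key := chebK K U.toSubgroup hUo C (by
    rintro x ⟨τ, hτ⟩ y
    refine ⟨τ * y⁻¹, ?_⟩
    have : τ * y⁻¹ * (y * x * y⁻¹) * (τ * y⁻¹)⁻¹ * g⁻¹ = τ * x * τ⁻¹ * g⁻¹ := by group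
    rwa [this]) (by
    rintro x ⟨τ, hτ⟩ u hu
    refine ⟨τ, ?_⟩
    have h1 : (τ * x) * u * (τ * x)⁻¹ ∈ U.toSubgroup := hn.conj_mem u hu (τ * x)
    have h2 := U.toSubgroup.mul_mem h1 hτ
    have e : τ * x * u * (τ * x)⁻¹ * (τ * x * τ⁻¹ * g⁻¹) = τ * (x * u) * τ⁻¹ * g⁻¹ := by group
    rwa [e] at h2)
  have hc : (0 : ℝ) < (Nat.card (GK K ⧸ U.toSubgroup) : ℝ) := by exact_mod_cast Nat.card_pos
  have h1 : g ∈ C := ⟨1, by simp⟩
  have h2 : 1 ≤ ((QuotientGroup.mk : GK K → GK K ⧸ U.toSubgroup) '' C).ncard :=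
    (Set.ncard_pos (Set.toFinite _)).2 ⟨_, g, h1, rfl⟩
  have h3 : (1 : ℝ) ≤ (((QuotientGroup.mk : GK K → GK K ⧸ U.toSubgroup) '' C).ncard : ℝ) := by exact_mod_cast h2
  have h4 : (0 : ℝ) < (((QuotientGroup.mk : GK K → GK K ⧸ U.toSubgroup) '' C).ncard : ℝ) /
      (Nat.card (GK K ⧸ U.toSubgroup) : ℝ) := by positivity
  have h5 : NotNull fun v : HeightOneSpectrum (𝓞 K) => ∃ σ ∈ C, IsFrob v σ :=
    ⟨_, half_pos h4, ((key.eventually (lt_mem_nhds (half_lt_self h4))).mono fun N hN => hN.le).frequently⟩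
  refine not_notNull_finite (hS.subset ?_) h5
  rintro v ⟨σ, ⟨τ, hτ⟩, hσ⟩
  by_contra hv
  exact hcon v hv σ hσ τ hτ

/-- a unipotent diagonalizable matrix is trivial -/
theorem eq_one_of_diag {k : Type*} [Field k] (A : Matrix (Fin n) (Fin n) k)
    (h : ∃ (g : GL (Fin n) k) (d : Fin n → k), A = (g : Matrix (Fin n) (Fin n) k) * Matrix.diagonal d *
      ((g⁻¹ : GL (Fin n) k) : Matrix (Fin n) (Fin n) k)) (hA : A.charpoly = (X - 1) ^ n) : A = 1 := by
  obtain ⟨g, d, h⟩ := h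
  have h1 : ∏ i, (X - C (d i)) = (X - 1 : k[X]) ^ n := by
    rw [← hA, h, charpoly_conj, charpoly_diag]
  have h2 : ∀ i, d i = 1 := by
    intro i
    have h3 := congrArg (eval (d i)) h1
    rw [eval_prod, Finset.prod_eq_zero (Finset.mem_univ i) (by simp), eval_pow, eval_sub, eval_X,
      eval_one] at h3
    have hn0 : n ≠ 0 := by have := i.2; omega
    exact sub_eq_zero.1 ((pow_eq_zero_iff hn0).1 h3.symm)
  have h3 : Matrix.diagonal d = (1 : Matrix (Fin n) (Fin n) k) := by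
    rw [← Matrix.diagonal_one]
    congr 1
    ext i
    exact h2 i
  rw [h, h3, mul_one, ← Units.val_mul, mul_inv_cancel, Units.val_one]

/-- a representation which is unipotent on an open subgroup and has diagonalizable Frobenius elements
has an open kernel -/
theorem ker_of_diag {k : Type} [Field k] [TopologicalSpace k] [T1Space k]
    (ρ : GK K →* GL (Fin n) k) (hρ : Continuous fun g => (ρ g : Matrix (Fin n) (Fin n) k)) (S : Set (HeightOneSpectrum (𝓞 K))) (hS : S.Finite)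
    (hd : ∀ v ∉ S, ∀ σ, IsFrob v σ → ∃ (g : GL (Fin n) k) (d : Fin n → k),
      (ρ σ : Matrix (Fin n) (Fin n) k) = (g : Matrix (Fin n) (Fin n) k) * Matrix.diagonal d *
        ((g⁻¹ : GL (Fin n) k) : Matrix (Fin n) (Fin n) k))
    (U : OpenNormalSubgroup (GK K))
    (hU : ∀ u ∈ U.toSubgroup, (ρ u : Matrix (Fin n) (Fin n) k).charpoly = (X - 1) ^ n) :
    ∀ u ∈ U.toSubgroup, ρ u = 1 := by
  intro u hu
  by_contra hne
  have hcl : IsClosed {g : GK K | ρ g = 1} := by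
    have e : {g : GK K | ρ g = 1} = (fun g => (ρ g : Matrix (Fin n) (Fin n) k)) ⁻¹' {1} := by
      ext g
      show ρ g = 1 ↔ (ρ g : Matrix (Fin n) (Fin n) k) = 1
      rw [Units.ext_iff, Units.val_one]
    rw [e]
    haveI : T1Space (Matrix (Fin n) (Fin n) k) := inferInstanceAs (T1Space (Fin n → Fin n → k))
    exact isClosed_singleton.preimage hρ
  have h1 : (fun x => x * u) ⁻¹' {g : GK K | ρ g = 1}ᶜ ∈ 𝓝 (1 : GK K) := by
    refine (continuous_mul_right u).continuousAt.preimage_mem_nhds ?_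
    rw [one_mul]
    exact hcl.isOpen_compl.mem_nhds hne
  have h1' : (U.toSubgroup : Set (GK K)) ∩ (fun x => x * u) ⁻¹' {g : GK K | ρ g = 1}ᶜ ∈ 𝓝 (1 : GK K) :=
    Filter.inter_mem (U.isOpen'.mem_nhds (one_mem U.toSubgroup)) h1
  obtain ⟨W, hW1, hW, hW0⟩ := mem_nhds_iff.mp h1'
  obtain ⟨V, hV⟩ := ProfiniteGrp.exist_openNormalSubgroup_sub_open_nhds_of_one hW hW0
  obtain ⟨v, hv, σ, hσ, τ, hτ⟩ := exists_frobK V S hS u
  have h2 := hW1 (hV hτ)
  have h3 : τ * σ * τ⁻¹ ∈ U.toSubgroup := by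
    have := U.toSubgroup.mul_mem h2.1 hu
    rwa [inv_mul_cancel_right] at this
  have h4 : IsFrob v (τ * σ * τ⁻¹) := by
    obtain ⟨Q, hQ, hQv, hQσ⟩ := hσ
    exact ⟨_, Pool.Agent.W401.Frob.tr_max τ Q hQ, (Pool.Agent.W401.Frob.tr_comap τ Q).trans hQv,
      Pool.Agent.W401.Frob.frob_conj v σ τ Q hQσ⟩
  have h5 := eq_one_of_diag _ (hd v hv _ h4) (hU _ h3)
  apply h2.2
  show ρ (τ * σ * τ⁻¹ * u⁻¹ * u) = 1
  rw [inv_mul_cancel_right]
  exact Units.ext h5

end nf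

end Pool.Agent.Y801.LG
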