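import Pool.Agent.Y802.Final
import Pool.Agent.Y800.FinExt
import Pool.Agent.Y800.Two

/-! Composition factors: if on many elements of a profinite group the eigenvalues are roots of unity
with no vanishing subsums, then an open subgroup acts unipotently. -/

set_option autoImplicit false
set_option linter.all false

namespace Pool.Agent.Y801.LG

open Module MeasureTheory Topology Filter NumberField IsDedekindDomain Pool.Agent.Y800 Polynomial
open Pool.Agent.W401.Cheb Pool.Agent.W528.Ord Pool.Agent.Y802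

section block

variable {G : Type*} [Group G] {k : Type*} [Field k] {n : ℕ}

theorem exists_block (ρ : G →* GL (Fin n) k) (W : Submodule k (Fin n → k)) (hW : Stable ρ W)
    (h0 : W ≠ ⊥) (h1 : W ≠ ⊤) :
    ∃ (a b : ℕ) (ρ₁ : G →* GL (Fin a) k) (ρ₂ : G →* GL (Fin b) k)
      (L₁ : Matrix (Fin n) (Fin n) k →ₗ[k] Matrix (Fin a) (Fin a) k)
      (L₂ : Matrix (Fin n) (Fin n) k →ₗ[k] Matrix (Fin b) (Fin b) k), a < n ∧ b < n ∧ a + b = n ∧
      (∀ g, (ρ₁ g : Matrix (Fin a) (Fin a) k) = L₁ (ρ g : Matrix (Fin n) (Fin n) k)) ∧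
      (∀ g, (ρ₂ g : Matrix (Fin b) (Fin b) k) = L₂ (ρ g : Matrix (Fin n) (Fin n) k)) ∧
      ∀ g, (ρ g : Matrix (Fin n) (Fin n) k).charpoly =
        (ρ₁ g : Matrix (Fin a) (Fin a) k).charpoly * (ρ₂ g : Matrix (Fin b) (Fin b) k).charpoly := by
  classical
  obtain ⟨C, hC⟩ := W.exists_isCompl
  have hC1 : C ≠ ⊤ := by
    intro h
    apply h0
    have := hC.inf_eq_bot
    rwa [h, inf_top_eq] at this
  let bW := Module.finBasis k W
  let bC := Module.finBasis k C
  let β : Basis (Fin (finrank k W) ⊕ Fin (finrank k C)) k (Fin n → k) :=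
    (bW.prod bC).map (Submodule.prodEquivOfIsCompl W C hC)
  have hβ1 : ∀ i, β (Sum.inl i) = (bW i : Fin n → k) := by
    intro i
    show (Submodule.prodEquivOfIsCompl W C hC) ((bW.prod bC) (Sum.inl i)) = _
    rw [Submodule.coe_prodEquivOfIsCompl', Basis.prod_apply_inl_fst, Basis.prod_apply_inl_snd]
    simp
  let M : Matrix (Fin n) (Fin n) k →ₗ[k] Matrix (Fin (finrank k W) ⊕ Fin (finrank k C)) (Fin (finrank k W) ⊕ Fin (finrank k C)) k :=
    (LinearMap.toMatrix β β).toLinearMap ∘ₗ Matrix.toLin'.toLinearMap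
  have hM : ∀ A, M A = LinearMap.toMatrix β β (Matrix.toLin' A) := fun A => rfl
  have hM1 : M 1 = 1 := by
    rw [hM, Matrix.toLin'_one, LinearMap.toMatrix_id]
  have hMm : ∀ A B, M (A * B) = M A * M B := by
    intro A B
    rw [hM, hM, hM, Matrix.toLin'_mul, LinearMap.toMatrix_comp β β β]
  have hrep : ∀ w ∈ W, ∀ j, β.repr w (Sum.inr j) = 0 := by
    intro w hw j
    show (bW.prod bC).repr ((Submodule.prodEquivOfIsCompl W C hC).symm w) (Sum.inr j) = 0
    have e : (Submodule.prodEquivOfIsCompl W C hC).symm w = ((⟨w, hw⟩ : W), (0 : C)) :=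
      Submodule.prodEquivOfIsCompl_symm_apply_left W C hC (⟨w, hw⟩ : W)
    rw [e]
    simp
  have h21 : ∀ g, (M (ρ g : Matrix (Fin n) (Fin n) k)).toBlocks₂₁ = 0 := by
    intro g
    ext j i
    rw [hM]
    show LinearMap.toMatrix β β (Matrix.toLin' (ρ g : Matrix (Fin n) (Fin n) k)) (Sum.inr j) (Sum.inl i) = 0
    rw [LinearMap.toMatrix_apply, hβ1]
    exact hrep _ (hW g _ (bW i).2) j
  have hblk : ∀ g, M (ρ g : Matrix (Fin n) (Fin n) k) =
      Matrix.fromBlocks (M (ρ g : Matrix (Fin n) (Fin n) k)).toBlocks₁₁ (M (ρ g : Matrix (Fin n) (Fin n) k)).toBlocks₁₂ 0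
        (M (ρ g : Matrix (Fin n) (Fin n) k)).toBlocks₂₂ := by
    intro g
    conv_lhs => rw [← Matrix.fromBlocks_toBlocks (M (ρ g : Matrix (Fin n) (Fin n) k)), h21]
  have hmul : ∀ g h, (M (ρ (g * h) : Matrix (Fin n) (Fin n) k)) = M (ρ g : Matrix (Fin n) (Fin n) k) * M (ρ h : Matrix (Fin n) (Fin n) k) := by
    intro g h
    rw [map_mul, Units.val_mul, hMm]
  let f₁ : G →* Matrix (Fin (finrank k W)) (Fin (finrank k W)) k :=
    { toFun := fun g => (M (ρ g : Matrix (Fin n) (Fin n) k)).toBlocks₁₁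
      map_one' := by
        rw [map_one, Units.val_one, hM1, ← Matrix.fromBlocks_one, Matrix.toBlocks_fromBlocks₁₁]
      map_mul' := fun g h => by
        rw [hmul, hblk g, hblk h, Matrix.fromBlocks_multiply]
        simp only [Matrix.toBlocks_fromBlocks₁₁, Matrix.mul_zero, add_zero] }
  let f₂ : G →* Matrix (Fin (finrank k C)) (Fin (finrank k C)) k :=
    { toFun := fun g => (M (ρ g : Matrix (Fin n) (Fin n) k)).toBlocks₂₂
      map_one' := by
        rw [map_one, Units.val_one, hM1, ← Matrix.fromBlocks_one, Matrix.toBlocks_fromBlocks₂₂]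
      map_mul' := fun g h => by
        rw [hmul, hblk g, hblk h, Matrix.fromBlocks_multiply]
        simp only [Matrix.toBlocks_fromBlocks₂₂, Matrix.zero_mul, zero_add] }
  let T₁ : Matrix (Fin (finrank k W) ⊕ Fin (finrank k C)) (Fin (finrank k W) ⊕ Fin (finrank k C)) k →ₗ[k]
      Matrix (Fin (finrank k W)) (Fin (finrank k W)) k :=
    { toFun := fun A => A.toBlocks₁₁
      map_add' := fun A B => by ext i j; rfl
      map_smul' := fun c A => by ext i j; rfl }
  let T₂ : Matrix (Fin (finrank k W) ⊕ Fin (finrank k C)) (Fin (finrank k W) ⊕ Fin (finrank k C)) k →ₗ[k]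
      Matrix (Fin (finrank k C)) (Fin (finrank k C)) k :=
    { toFun := fun A => A.toBlocks₂₂
      map_add' := fun A B => by ext i j; rfl
      map_smul' := fun c A => by ext i j; rfl }
  have hfr : finrank k (Fin n → k) = n := by simp
  refine ⟨finrank k W, finrank k C, f₁.toHomUnits, f₂.toHomUnits, T₁ ∘ₗ M, T₂ ∘ₗ M, ?_, ?_, ?_, ?_, ?_, ?_⟩
  · have := Submodule.finrank_lt h1
    rwa [hfr] at this
  · have := Submodule.finrank_lt hC1
    rwa [hfr] at this
  · have := Submodule.finrank_add_eq_of_isCompl hC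
    rwa [hfr] at this
  · intro g; rfl
  · intro g; rfl
  · intro g
    show _ = ((M (ρ g : Matrix (Fin n) (Fin n) k)).toBlocks₁₁).charpoly * ((M (ρ g : Matrix (Fin n) (Fin n) k)).toBlocks₂₂).charpoly
    rw [← Matrix.charpoly_fromBlocks_zero₂₁, ← hblk g, hM, LinearMap.charpoly_toMatrix,
      ← LinearMap.charpoly_toMatrix (Matrix.toLin' (ρ g : Matrix (Fin n) (Fin n) k)) (Pi.basisFun k (Fin n)),
      LinearMap.toMatrix_eq_toMatrix', LinearMap.toMatrix'_toLin']

end block

section unip

variable {G : Type*} [Group G] [TopologicalSpace G] [IsTopologicalGroup G]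
    [CompactSpace G] [T2Space G] [MeasurableSpace G] [BorelSpace G] [TotallyDisconnectedSpace G]

/-- the sums of all nonempty sub-multisets of the eigenvalues lie in `T` -/
def SubT {k : Type*} [Field k] {n : ℕ} (T : Finset k) (M : Matrix (Fin n) (Fin n) k) : Prop :=
  ∀ s : Multiset k, s ≤ M.charpoly.roots → s ≠ 0 → s.sum ∈ T

theorem card_roots_charpoly {k : Type*} [Field k] [IsAlgClosed k] {n : ℕ} (M : Matrix (Fin n) (Fin n) k) :
    Multiset.card M.charpoly.roots = n := by
  rw [← (IsAlgClosed.splits M.charpoly).natDegree_eq_card_roots, Matrix.charpoly_natDegree_eq_dim,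
    Fintype.card_fin]

theorem unip_A {k : Type*} [Field k] [IsAlgClosed k] [CharZero k] (μ : Measure G)
    [IsProbabilityMeasure μ] [μ.IsMulLeftInvariant] [μ.Regular]
    (T : Finset k) (hT : (0 : k) ∉ T) (S : Set G)
    (hS : ∀ C : Set G, IsClosed C → (∀ σ ∈ C, ∀ τ : G, τ * σ * τ⁻¹ ∈ C) → S ⊆ C → μ C ≠ 0) (n : ℕ) :
    ∀ (ρ : G →* GL (Fin n) k)
      (hcl : ∀ (l : Matrix (Fin n) (Fin n) k →ₗ[k] k) (t : k), IsClosed {g : G | l (ρ g : Matrix (Fin n) (Fin n) k) = t})
      (h : ∀ σ ∈ S, SubT T (ρ σ : Matrix (Fin n) (Fin n) k)),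
      ∃ U : OpenNormalSubgroup G, ∀ u ∈ U.toSubgroup, (ρ u : Matrix (Fin n) (Fin n) k).charpoly = (X - 1) ^ n := by
  classical
  induction n using Nat.strong_induction_on with
  | _ n ih =>
    intro ρ hcl h
    rcases Nat.eq_zero_or_pos n with hn0 | hn0
    · subst hn0
      obtain ⟨U, _⟩ := ProfiniteGrp.exist_openNormalSubgroup_sub_open_nhds_of_one (G := G) isOpen_univ (Set.mem_univ 1)
      refine ⟨U, fun u _ => ?_⟩
      rw [pow_zero]
      exact Matrix.charpoly_isEmpty
    by_cases hirr : Irr ρ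
    · have hconj : ∀ σ ∈ {g : G | (ρ g : Matrix (Fin n) (Fin n) k).trace ∈ T}, ∀ τ : G,
          τ * σ * τ⁻¹ ∈ {g : G | (ρ g : Matrix (Fin n) (Fin n) k).trace ∈ T} := by
        intro σ hσ τ
        show (ρ (τ * σ * τ⁻¹) : Matrix (Fin n) (Fin n) k).trace ∈ T
        rw [map_mul, map_mul, map_inv, Units.val_mul, Units.val_mul, Matrix.trace_mul_comm, ← mul_assoc,
          ← Units.val_mul, inv_mul_cancel, Units.val_one, one_mul]
        exact hσ
      have htr : ∀ t : k, IsClosed {g : G | (ρ g : Matrix (Fin n) (Fin n) k).trace = t} := fun t =>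
        hcl (Matrix.traceLinearMap (Fin n) k k) t
      have hcT : IsClosed {g : G | (ρ g : Matrix (Fin n) (Fin n) k).trace ∈ T} := by
        have e : {g : G | (ρ g : Matrix (Fin n) (Fin n) k).trace ∈ T} =
            ⋃ t ∈ T, {g : G | (ρ g : Matrix (Fin n) (Fin n) k).trace = t} := by
          ext x
          simp
        rw [e]
        exact T.finite_toSet.isClosed_biUnion fun t _ => htr t
      obtain ⟨U, hU⟩ := open_kernel μ ρ hirr (fun m hm _ => by
          have : m ≠ 0 := by omega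
          exact_mod_cast this) T hT htr (hS _ hcT hconj fun σ hσ => by
            show (ρ σ : Matrix (Fin n) (Fin n) k).trace ∈ T
            rw [Matrix.trace_eq_sum_roots_charpoly]
            refine h σ hσ _ le_rfl fun h0 => ?_
            have := card_roots_charpoly (ρ σ : Matrix (Fin n) (Fin n) k)
            rw [h0, Multiset.card_zero] at this
            omega)
      refine ⟨U, fun u hu => ?_⟩
      rw [hU u hu, Units.val_one, Matrix.charpoly_one, Fintype.card_fin]
    · unfold Irr at hirr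
      push Not at hirr
      obtain ⟨W, hW, h0, h1⟩ := hirr
      obtain ⟨a, b, ρ₁, ρ₂, L₁, L₂, ha, hb, hab, e1, e2, hchar⟩ := exists_block ρ W hW h0 h1
      have hroots : ∀ g, (ρ g : Matrix (Fin n) (Fin n) k).charpoly.roots =
          (ρ₁ g : Matrix (Fin a) (Fin a) k).charpoly.roots + (ρ₂ g : Matrix (Fin b) (Fin b) k).charpoly.roots := by
        intro g
        rw [hchar, roots_mul]
        exact mul_ne_zero (Matrix.charpoly_monic _).ne_zero (Matrix.charpoly_monic _).ne_zero
      obtain ⟨U₁, hU₁⟩ := ih a ha ρ₁ (fun l t => by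
          have := hcl (l ∘ₗ L₁) t
          convert this using 2
          ext g
          rw [LinearMap.comp_apply, e1]) (fun σ hσ s hs hs0 => h σ hσ s (by
            rw [hroots]
            exact hs.trans (Multiset.le_add_right _ _)) hs0)
      obtain ⟨U₂, hU₂⟩ := ih b hb ρ₂ (fun l t => by
          have := hcl (l ∘ₗ L₂) t
          convert this using 2
          ext g
          rw [LinearMap.comp_apply, e2]) (fun σ hσ s hs hs0 => h σ hσ s (by
            rw [hroots]
            exact hs.trans (Multiset.le_add_left _ _)) hs0)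
      refine ⟨U₁ ⊓ U₂, fun u hu => ?_⟩
      rw [hchar, hU₁ u hu.1, hU₂ u hu.2, ← pow_add, hab]

end unip

end Pool.Agent.Y801.LG
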