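import Pool.Agent.Y801.LG.Block

/-! Few traces on a large set, without semisimplicity: an open subgroup acts unipotently. -/

set_option autoImplicit false
set_option linter.all false

namespace Pool.Agent.Y801.LG

open Module MeasureTheory Topology Filter NumberField IsDedekindDomain Pool.Agent.Y800 Polynomial
open Pool.Agent.W401.Cheb Pool.Agent.W528.Ord Pool.Agent.Y802

section unip

variable {G : Type*} [Group G] [TopologicalSpace G] [IsTopologicalGroup G]
    [CompactSpace G] [T2Space G] [MeasurableSpace G] [BorelSpace G] [TotallyDisconnectedSpace G]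

/-- the elements which do not change the traces -/
def TrKer {k : Type*} [Field k] {n : ℕ} (ρ : G →* GL (Fin n) k) : Subgroup G where
  carrier := {u | ∀ g, (ρ (g * u) : Matrix (Fin n) (Fin n) k).trace = (ρ g : Matrix (Fin n) (Fin n) k).trace}
  one_mem' := fun g => by rw [mul_one]
  mul_mem' := by
    intro u v hu hv g
    rw [← mul_assoc, hv, hu]
  inv_mem' := by
    intro u hu g
    have := hu (g * u⁻¹)
    rw [inv_mul_cancel_right] at this
    exact this.symm

theorem TrKer_closed {k : Type*} [Field k] {n : ℕ} (ρ : G →* GL (Fin n) k)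
    (hcl : ∀ (l : Matrix (Fin n) (Fin n) k →ₗ[k] k) (t : k), IsClosed {g : G | l (ρ g : Matrix (Fin n) (Fin n) k) = t}) :
    IsClosed (TrKer ρ : Set G) := by
  have e : (TrKer ρ : Set G) = ⋂ g, {u | (Matrix.traceLinearMap (Fin n) k k ∘ₗ
      LinearMap.mulLeft k (ρ g : Matrix (Fin n) (Fin n) k)) (ρ u : Matrix (Fin n) (Fin n) k) =
        (ρ g : Matrix (Fin n) (Fin n) k).trace} := by
    ext u
    rw [Set.mem_iInter]
    refine forall_congr' fun g => ?_
    show (ρ (g * u) : Matrix (Fin n) (Fin n) k).trace = _ ↔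
      ((ρ g : Matrix (Fin n) (Fin n) k) * (ρ u : Matrix (Fin n) (Fin n) k)).trace = _
    rw [map_mul, Units.val_mul]
  rw [e]
  exact isClosed_iInter fun g => hcl _ _

theorem charpoly_of_TrKer {k : Type} [Field k] [CharZero k] {n : ℕ} (ρ : G →* GL (Fin n) k) {u : G}
    (hu : u ∈ TrKer ρ) : (ρ u : Matrix (Fin n) (Fin n) k).charpoly = (X - 1) ^ n := by
  have h1 : ∀ j : ℕ, ((ρ u : Matrix (Fin n) (Fin n) k) ^ j).trace = ((1 : Matrix (Fin n) (Fin n) k) ^ j).trace := by
    intro j
    have h2 : u ^ j ∈ TrKer ρ := pow_mem hu j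
    have h3 := h2 1
    rw [one_mul, map_one, Units.val_one, map_pow, Units.val_pow_eq_pow_val] at h3
    rw [h3, one_pow]
  rw [Pool.Agent.TH658.Eq.charpoly_eq_of_traces _ _ h1, Matrix.charpoly_one, Fintype.card_fin]

theorem unip_B {k : Type} [Field k] [CharZero k] (μ : Measure G)
    [IsProbabilityMeasure μ] [μ.IsMulLeftInvariant] {n : ℕ} (ρ : G →* GL (Fin n) k)
    (hcl : ∀ (l : Matrix (Fin n) (Fin n) k →ₗ[k] k) (t : k), IsClosed {g : G | l (ρ g : Matrix (Fin n) (Fin n) k) = t})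
    (T : Finset k) (c : ℝ)
    (hμ : ENNReal.ofReal (1 - c) ≤ μ {g : G | (ρ g : Matrix (Fin n) (Fin n) k).trace ∈ T})
    (hc : (n : ℝ) ^ 2 * c < 1) :
    ∃ U : OpenNormalSubgroup G, ∀ u ∈ U.toSubgroup, (ρ u : Matrix (Fin n) (Fin n) k).charpoly = (X - 1) ^ n := by
  classical
  obtain ⟨s, hs, hs'⟩ := exists_basis (k := k) (fun g => (ρ g : Matrix (Fin n) (Fin n) k))
  have hs2 : s.card ≤ n ^ 2 := by
    refine hs.trans ?_
    rw [Module.finrank_matrix, Module.finrank_self, Fintype.card_fin, mul_one, sq]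
  set C : Set G := {g : G | (ρ g : Matrix (Fin n) (Fin n) k).trace ∈ T} with hCdef
  have hC : IsClosed C := by
    have e : C = ⋃ t ∈ T, {g : G | (ρ g : Matrix (Fin n) (Fin n) k).trace = t} := by
      ext x
      simp [hCdef]
    rw [e]
    exact T.finite_toSet.isClosed_biUnion fun t _ => hcl (Matrix.traceLinearMap (Fin n) k k) t
  set D : Set G := {x | ∀ g ∈ s, g * x ∈ C} with hD
  have hDμ := inter_large μ C hC c hμ s
  have hc0 : 0 ≤ c := by
    have h1 : ENNReal.ofReal (1 - c) ≤ 1 := hμ.trans prob_le_one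
    rw [ENNReal.ofReal_le_one] at h1
    linarith
  -- elements of `D` are determined modulo `TrKer` by the traces
  have hdet : ∀ x y : G, (∀ g ∈ s, (ρ (g * x) : Matrix (Fin n) (Fin n) k).trace =
      (ρ (g * y) : Matrix (Fin n) (Fin n) k).trace) → y⁻¹ * x ∈ TrKer ρ := by
    intro x y hxy
    have h2 := hs' ((Matrix.traceLinearMap (Fin n) k k) ∘ₗ
        LinearMap.mulRight k ((ρ x : Matrix (Fin n) (Fin n) k) - ρ y)) (by
      intro g hg
      rw [LinearMap.comp_apply, LinearMap.mulRight_apply, Matrix.traceLinearMap_apply, mul_sub,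
        Matrix.trace_sub, sub_eq_zero]
      have h3 := hxy g hg
      rw [map_mul, map_mul, Units.val_mul, Units.val_mul] at h3
      exact h3)
    intro g
    have h4 := h2 (g * y⁻¹)
    rw [LinearMap.comp_apply, LinearMap.mulRight_apply, Matrix.traceLinearMap_apply, mul_sub,
        Matrix.trace_sub, sub_eq_zero, ← Units.val_mul, ← Units.val_mul, ← map_mul, ← map_mul,
        inv_mul_cancel_right] at h4
    rw [← h4]
    congr 3
    group
  let F : G → (s → k) := fun x g => (ρ (g.1 * x) : Matrix (Fin n) (Fin n) k).trace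
  have hF : ∀ x ∈ D, F x ∈ (Fintype.piFinset fun _ : s => T) := by
    intro x hx
    rw [Fintype.mem_piFinset]
    intro g
    exact hx g.1 g.2
  have himg : ∃ t : Finset (G ⧸ TrKer ρ), ∀ x ∈ D, (QuotientGroup.mk x : G ⧸ TrKer ρ) ∈ t := by
    have hfin : (F '' D).Finite := (Finset.finite_toSet _).subset (by
      rintro _ ⟨x, hx, rfl⟩; exact hF x hx)
    choose! φ hφ using fun (y : s → k) (hy : y ∈ F '' D) => hy
    refine ⟨(hfin.toFinset).image fun y => QuotientGroup.mk (φ y), ?_⟩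
    intro x hx
    rw [Finset.mem_image]
    refine ⟨F x, by rw [Set.Finite.mem_toFinset]; exact ⟨x, hx, rfl⟩, ?_⟩
    have h1 := hφ (F x) ⟨x, hx, rfl⟩
    rw [QuotientGroup.eq]
    apply hdet
    intro g hg
    exact (congrFun h1.2 ⟨g, hg⟩).symm
  obtain ⟨t, htD⟩ := himg
  have hclH := TrKer_closed ρ hcl
  have hcoset : ∀ g : G, {x : G | (QuotientGroup.mk x : G ⧸ TrKer ρ) = QuotientGroup.mk g} =
      (fun x => g⁻¹ * x) ⁻¹' (TrKer ρ : Set G) := by
    intro g
    ext x
    simp only [Set.mem_setOf_eq, Set.mem_preimage, SetLike.mem_coe]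
    rw [eq_comm, QuotientGroup.eq]
  have h3 : μ D ≤ t.card * μ (TrKer ρ : Set G) := by
    have hsub : D ⊆ ⋃ q ∈ t, {x : G | (QuotientGroup.mk x : G ⧸ TrKer ρ) = q} := by
      intro x hx
      rw [Set.mem_iUnion₂]
      exact ⟨_, htD x hx, rfl⟩
    refine (measure_mono hsub).trans ((measure_biUnion_finset_le t _).trans ?_)
    have h1 : ∀ q ∈ t, μ {x : G | (QuotientGroup.mk x : G ⧸ TrKer ρ) = q} = μ (TrKer ρ : Set G) := by
      intro q _
      obtain ⟨g, rfl⟩ := QuotientGroup.mk_surjective q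
      rw [hcoset, measure_preimage_mul]
    rw [Finset.sum_congr rfl h1, Finset.sum_const, nsmul_eq_mul]
  set m : ℝ := (μ (TrKer ρ : Set G)).toReal with hm
  have hmt : μ (TrKer ρ : Set G) ≠ ⊤ := measure_ne_top μ _
  have hscard : (s.card : ℝ) ≤ (n : ℝ) ^ 2 := by exact_mod_cast hs2
  have h4 : 1 - c * n ^ 2 ≤ t.card * m := by
    have h5 : ENNReal.ofReal (1 - s.card * c) ≤ ENNReal.ofReal (t.card * m) := by
      refine hDμ.trans (h3.trans ?_)
      rw [ENNReal.ofReal_mul (Nat.cast_nonneg _), ENNReal.ofReal_natCast, hm, ENNReal.ofReal_toReal hmt]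
    rw [ENNReal.ofReal_le_ofReal_iff (by positivity)] at h5
    nlinarith
  have hpos : 0 < 1 - c * n ^ 2 := by linarith
  have hm0 : 0 < m := by
    by_contra h
    have : (t.card : ℝ) * m ≤ 0 := mul_nonpos_of_nonneg_of_nonpos (Nat.cast_nonneg _) (not_lt.1 h)
    linarith
  have h6 : ∀ u : Finset (G ⧸ TrKer ρ), (u.card : ℝ) * m ≤ 1 := by
    intro u
    have h7 := coset_count μ (TrKer ρ) hclH u
    have h8 := ENNReal.toReal_mono ENNReal.one_ne_top h7
    rwa [ENNReal.toReal_mul, ENNReal.toReal_natCast, ENNReal.toReal_one] at h8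
  have hfin : Finite (G ⧸ TrKer ρ) := by
    by_contra h
    have hinf : Infinite (G ⧸ TrKer ρ) := not_finite_iff_infinite.1 h
    obtain ⟨N, hN⟩ := exists_nat_gt (1 / m)
    obtain ⟨u, hu⟩ := Infinite.exists_subset_card_eq (G ⧸ TrKer ρ) N
    have := h6 u
    rw [hu] at this
    rw [div_lt_iff₀ hm0] at hN
    linarith
  haveI : (TrKer ρ).FiniteIndex := Subgroup.finiteIndex_of_finite_quotient
  have hopen : IsOpen (TrKer ρ : Set G) := Subgroup.isOpen_of_isClosed_of_finiteIndex _ hclH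
  obtain ⟨U, hU⟩ := ProfiniteGrp.exist_openNormalSubgroup_sub_open_nhds_of_one hopen (one_mem (TrKer ρ))
  exact ⟨U, fun u hu => charpoly_of_TrKer ρ (hU hu)⟩

end unip

end Pool.Agent.Y801.LG
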