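import Pool.Agent.Y801.LG.RS

/-! Irreducibility of representations of Artin type. -/

set_option autoImplicit false
set_option linter.all false

namespace Pool.Agent.Y801.LG

open Module MeasureTheory Topology Filter NumberField IsDedekindDomain Pool.Agent.Y800 Polynomial
open Pool.Agent.W401.Cheb Pool.Agent.W528.Ord Pool.Agent.Y802

variable {K : Type} [Field K] [NumberField K] {n : ℕ}

/-- the contragredient representation -/
def contra {G : Type*} [Group G] {k : Type*} [Field k] (ρ : G →* GL (Fin n) k) : G →* GL (Fin n) k where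
  toFun g := ⟨(ρ g⁻¹ : Matrix (Fin n) (Fin n) k).transpose, (ρ g : Matrix (Fin n) (Fin n) k).transpose, by
      rw [← Matrix.transpose_mul, ← Units.val_mul, ← map_mul, mul_inv_cancel, map_one, Units.val_one,
        Matrix.transpose_one], by
      rw [← Matrix.transpose_mul, ← Units.val_mul, ← map_mul, inv_mul_cancel, map_one, Units.val_one,
        Matrix.transpose_one]⟩
  map_one' := by
    apply Units.ext
    show (ρ (1 : G)⁻¹ : Matrix (Fin n) (Fin n) k).transpose = 1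
    rw [inv_one, map_one, Units.val_one, Matrix.transpose_one]
  map_mul' g h := by
    apply Units.ext
    show (ρ (g * h)⁻¹ : Matrix (Fin n) (Fin n) k).transpose =
      (ρ g⁻¹ : Matrix (Fin n) (Fin n) k).transpose * (ρ h⁻¹ : Matrix (Fin n) (Fin n) k).transpose
    rw [← Matrix.transpose_mul, ← Units.val_mul, ← map_mul, mul_inv_rev]

theorem contra_val {G : Type*} [Group G] {k : Type*} [Field k] (ρ : G →* GL (Fin n) k) (g : G) :
    (contra ρ g : Matrix (Fin n) (Fin n) k) = (ρ g⁻¹ : Matrix (Fin n) (Fin n) k).transpose := rfl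

theorem contra_continuous {G : Type*} [Group G] [TopologicalSpace G] [IsTopologicalGroup G] {k : Type*} [Field k]
    [TopologicalSpace k] (ρ : G →* GL (Fin n) k) (hρ : Continuous ρ) : Continuous (contra ρ) := by
  rw [Units.continuous_iff]
  refine ⟨?_, ?_⟩
  · have h1 : Continuous fun g => (ρ g⁻¹ : Matrix (Fin n) (Fin n) k) :=
      Units.continuous_val.comp (hρ.comp continuous_inv)
    exact h1.matrix_transpose
  · have h1 : Continuous fun g => (ρ g : Matrix (Fin n) (Fin n) k) := Units.continuous_val.comp hρ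
    have h2 : (fun g => ((contra ρ g)⁻¹ : GL (Fin n) k).val) = fun g => (ρ g : Matrix (Fin n) (Fin n) k).transpose := by
      ext g
      rfl
    rw [h2]
    exact h1.matrix_transpose

theorem diag_transpose {k : Type*} [Field k] (h : GL (Fin n) k) (d : Fin n → k) :
    ∃ x : GL (Fin n) k, ((h : Matrix (Fin n) (Fin n) k) * Matrix.diagonal d * ((h⁻¹ : GL (Fin n) k) : Matrix (Fin n) (Fin n) k)).transpose =
      (x : Matrix (Fin n) (Fin n) k) * Matrix.diagonal d * ((x⁻¹ : GL (Fin n) k) : Matrix (Fin n) (Fin n) k) := by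
  refine ⟨⟨((h⁻¹ : GL (Fin n) k) : Matrix (Fin n) (Fin n) k).transpose, (h : Matrix (Fin n) (Fin n) k).transpose, ?_, ?_⟩, ?_⟩
  · rw [← Matrix.transpose_mul, ← Units.val_mul, mul_inv_cancel, Units.val_one, Matrix.transpose_one]
  · rw [← Matrix.transpose_mul, ← Units.val_mul, inv_mul_cancel, Units.val_one, Matrix.transpose_one]
  · rw [Matrix.transpose_mul, Matrix.transpose_mul, Matrix.diagonal_transpose, ← mul_assoc]
    rfl

/-- traces of matrices of finite order: the inverse has the complex conjugate trace -/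
theorem trace_inv_conj (B C : Matrix (Fin n) (Fin n) ℂ) (hBC : B * C = 1) (M : ℕ) (hM : 0 < M) (hB : B ^ M = 1) :
    C.trace = starRingEnd ℂ B.trace := by
  obtain ⟨b, d, hbd⟩ := diag_of_pow_eq_one B M hM hB
  obtain ⟨h, hh⟩ := conj_of_basis B b d hbd
  have hd : ∀ i, d i ^ M = 1 := by
    intro i
    have h1 : ∀ j : ℕ, (B ^ j).mulVec (b i) = d i ^ j • b i := by
      intro j
      induction j with
      | zero => rw [pow_zero, pow_zero, Matrix.one_mulVec, one_smul]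
      | succ j ih => rw [pow_succ, ← Matrix.mulVec_mulVec, hbd, Matrix.mulVec_smul, ih, smul_smul, pow_succ, mul_comm]
    have h2 := h1 M
    rw [hB, Matrix.one_mulVec] at h2
    have h3 : (d i ^ M - 1) • b i = 0 := by rw [sub_smul, one_smul, ← h2, sub_self]
    exact sub_eq_zero.1 ((smul_eq_zero.1 h3).resolve_right (b.ne_zero i))
  have hd0 : ∀ i, d i ≠ 0 := by
    intro i h0
    have := hd i
    rw [h0, zero_pow hM.ne'] at this
    exact zero_ne_one this
  have hC : C = (h : Matrix (Fin n) (Fin n) ℂ) * Matrix.diagonal (fun i => (d i)⁻¹) * ((h⁻¹ : GL (Fin n) ℂ) : Matrix (Fin n) (Fin n) ℂ) := by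
    have h1 : B * ((h : Matrix (Fin n) (Fin n) ℂ) * Matrix.diagonal (fun i => (d i)⁻¹) * ((h⁻¹ : GL (Fin n) ℂ) : Matrix (Fin n) (Fin n) ℂ)) = 1 := by
      rw [hh]
      have e1 : ((h⁻¹ : GL (Fin n) ℂ) : Matrix (Fin n) (Fin n) ℂ) * (h : Matrix (Fin n) (Fin n) ℂ) = 1 := by
        rw [← Units.val_mul, inv_mul_cancel, Units.val_one]
      have e2 : (h : Matrix (Fin n) (Fin n) ℂ) * ((h⁻¹ : GL (Fin n) ℂ) : Matrix (Fin n) (Fin n) ℂ) = 1 := by
        rw [← Units.val_mul, mul_inv_cancel, Units.val_one]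
      have e3 : Matrix.diagonal d * Matrix.diagonal (fun i => (d i)⁻¹) = (1 : Matrix (Fin n) (Fin n) ℂ) := by
        rw [Matrix.diagonal_mul_diagonal, ← Matrix.diagonal_one]
        congr 1
        ext i
        exact mul_inv_cancel₀ (hd0 i)
      calc (h : Matrix (Fin n) (Fin n) ℂ) * Matrix.diagonal d * ((h⁻¹ : GL (Fin n) ℂ) : Matrix (Fin n) (Fin n) ℂ) *
            ((h : Matrix (Fin n) (Fin n) ℂ) * Matrix.diagonal (fun i => (d i)⁻¹) * ((h⁻¹ : GL (Fin n) ℂ) : Matrix (Fin n) (Fin n) ℂ))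
          = (h : Matrix (Fin n) (Fin n) ℂ) * (Matrix.diagonal d * ((((h⁻¹ : GL (Fin n) ℂ) : Matrix (Fin n) (Fin n) ℂ) *
            (h : Matrix (Fin n) (Fin n) ℂ)) * Matrix.diagonal (fun i => (d i)⁻¹))) * ((h⁻¹ : GL (Fin n) ℂ) : Matrix (Fin n) (Fin n) ℂ) := by
            simp only [mul_assoc]
        _ = 1 := by rw [e1, one_mul, e3, mul_one, e2]
    have h2 : C * B = 1 := mul_eq_one_comm.1 hBC
    calc C = C * (B * ((h : Matrix (Fin n) (Fin n) ℂ) * Matrix.diagonal (fun i => (d i)⁻¹) * ((h⁻¹ : GL (Fin n) ℂ) : Matrix (Fin n) (Fin n) ℂ))) := by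
          rw [h1, mul_one]
      _ = _ := by rw [← mul_assoc, h2, one_mul]
  have htr : ∀ e : Fin n → ℂ, ((h : Matrix (Fin n) (Fin n) ℂ) * Matrix.diagonal e * ((h⁻¹ : GL (Fin n) ℂ) : Matrix (Fin n) (Fin n) ℂ)).trace = ∑ i, e i := by
    intro e
    rw [Matrix.trace_mul_comm, ← mul_assoc, ← Units.val_mul, inv_mul_cancel, Units.val_one, one_mul,
      Matrix.trace_diagonal]
  rw [hC, htr, hh, htr, map_sum]
  refine Finset.sum_congr rfl fun i _ => ?_
  have h1 : ‖d i‖ = 1 := by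
    have h2 := congrArg norm (hd i)
    rw [norm_pow, norm_one] at h2
    exact (pow_eq_one_iff_of_nonneg (norm_nonneg _) hM.ne').1 h2
  rw [Complex.inv_def, Complex.normSq_eq_norm_sq, h1]
  simp

theorem trace_map_iso {k : Type} [Field k] (ι : k ≃+* ℂ) (A : Matrix (Fin n) (Fin n) k) :
    (A.map (ι : k →+* ℂ)).trace = ι A.trace := map_trace_aux (f := (ι : k →+* ℂ)) A

/-- at most `(1 + ε) π(N)` places have norm at most `N` -/
theorem count_le {ε : ℝ} (hε : 0 < ε) : ∀ᶠ N : ℕ in atTop,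
    ({v : HeightOneSpectrum (𝓞 K) | Ideal.absNorm v.asIdeal ≤ N}.ncard : ℝ) ≤ (1 + ε) * (Nat.primeCounting N : ℝ) := by
  have key := chebK K (⊤ : Subgroup (GK K)) isOpen_univ Set.univ (fun _ _ _ => trivial)
    (fun _ _ _ _ => trivial)
  have e1 : ((((QuotientGroup.mk : GK K → GK K ⧸ (⊤ : Subgroup (GK K))) '' Set.univ).ncard : ℝ) /
      (Nat.card (GK K ⧸ (⊤ : Subgroup (GK K))) : ℝ)) = 1 := by
    rw [Set.image_univ_of_surjective QuotientGroup.mk_surjective, Set.ncard_univ]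
    have h2 : Nat.card (GK K ⧸ (⊤ : Subgroup (GK K))) = 1 := by
      have := Subgroup.index_top (G := GK K)
      exact this
    rw [h2]
    norm_num
  rw [e1] at key
  filter_upwards [key.eventually (gt_mem_nhds (show (1 : ℝ) < 1 + ε by linarith)), tendsto_pi.eventually_gt_atTop 0] with N hN hpos
  unfold dens at hN
  rw [div_lt_iff₀ hpos] at hN
  refine le_trans ?_ hN.le
  have e2 : Nat.card {v : HeightOneSpectrum (𝓞 K) // Ideal.absNorm v.asIdeal ≤ N ∧
      ∃ σ ∈ (Set.univ : Set (GK K)), IsFrob v σ} =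
      {v : HeightOneSpectrum (𝓞 K) | Ideal.absNorm v.asIdeal ≤ N}.ncard := by
    have : {v : HeightOneSpectrum (𝓞 K) | Ideal.absNorm v.asIdeal ≤ N} =
        {v : HeightOneSpectrum (𝓞 K) | Ideal.absNorm v.asIdeal ≤ N ∧
      ∃ σ ∈ (Set.univ : Set (GK K)), IsFrob v σ} := by
      ext v
      constructor
      · intro hv
        obtain ⟨σ, hσ⟩ := Pool.Agent.W401.Frob.exists_frob v
        exact ⟨hv, σ, trivial, hσ⟩
      · exact fun hv => hv.1
    rw [this]
    rfl
  rw [e2]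

/-- unramified, and geometric Frobenius elements are conjugate to the diagonal matrix -/
def CorrK {k : Type*} [Field k] (ρ : GK K →* GL (Fin n) k) (v : HeightOneSpectrum (𝓞 K)) (a : Fin n → k) : Prop :=
  (∀ τ, IsInert v τ → ρ τ = 1) ∧ ∀ σ, IsFrob v σ⁻¹ → ∃ h : GL (Fin n) k, (ρ σ : Matrix (Fin n) (Fin n) k) =
    (h : Matrix (Fin n) (Fin n) k) * Matrix.diagonal a * ((h⁻¹ : GL (Fin n) k) : Matrix (Fin n) (Fin n) k)

theorem corr_open (hn : 0 < n) (S : Set (HeightOneSpectrum (𝓞 K))) (hS : S.Finite)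
    (α : HeightOneSpectrum (𝓞 K) → Fin n → ℂ) (hA : Hyp n (fun v => Matrix.diagonal (α v)) S)
    {ℓ : ℕ} [Fact ℓ.Prime] (ι : PadicAlgCl ℓ ≃+* ℂ) (ρ : GK K →* GL (Fin n) (PadicAlgCl ℓ)) (hρ : Continuous ρ)
    (hc : ∀ v ∉ S, (ℓ : 𝓞 K) ∉ v.asIdeal → CorrK ρ v fun i => ι.symm (α v i)) :
    ∃ U : OpenNormalSubgroup (GK K), ∀ u ∈ U.toSubgroup, ρ u = 1 := by
  classical
  have hS' : (S ∪ {v : HeightOneSpectrum (𝓞 K) | (ℓ : 𝓞 K) ∈ v.asIdeal}).Finite := hS.union finite_above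
  have hcon : ∀ v ∉ S ∪ {v : HeightOneSpectrum (𝓞 K) | (ℓ : 𝓞 K) ∈ v.asIdeal}, ∀ σ, IsFrob v σ →
      ∃ x : GL (Fin n) (PadicAlgCl ℓ), (contra ρ σ : Matrix (Fin n) (Fin n) (PadicAlgCl ℓ)) =
        (x : Matrix (Fin n) (Fin n) (PadicAlgCl ℓ)) * Matrix.diagonal (fun i => ι.symm (α v i)) *
          ((x⁻¹ : GL (Fin n) (PadicAlgCl ℓ)) : Matrix (Fin n) (Fin n) (PadicAlgCl ℓ)) := by
    intro v hv σ hσ
    obtain ⟨h, hh⟩ := (hc v (fun h => hv (Or.inl h)) fun h => hv (Or.inr h)).2 σ⁻¹ (by rwa [inv_inv])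
    rw [contra_val, hh]
    exact diag_transpose h _
  obtain ⟨U, hU⟩ := open_ker hn (contra ρ) (contra_continuous ρ hρ) ι S _ hS' _ hA
    (fun v hv σ hσ => by
      obtain ⟨x, hx⟩ := hcon v hv σ hσ
      exact ⟨x, _, hx⟩)
    (fun v hv _ => by
      obtain ⟨σ, hσ⟩ := Pool.Agent.W401.Frob.exists_frob v
      obtain ⟨x, hx⟩ := hcon v hv σ hσ
      refine ⟨σ, hσ, Matrix.GeneralLinearGroup.map (ι : PadicAlgCl ℓ →+* ℂ) x, ?_⟩
      rw [← map_inv]
      show (contra ρ σ : Matrix (Fin n) (Fin n) (PadicAlgCl ℓ)).map ι = (x : Matrix (Fin n) (Fin n) (PadicAlgCl ℓ)).map ι *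
        Matrix.diagonal (α v) * ((x⁻¹ : GL (Fin n) (PadicAlgCl ℓ)) : Matrix (Fin n) (Fin n) (PadicAlgCl ℓ)).map ι
      have e : (Matrix.diagonal (fun i => ι.symm (α v i))).map (ι : PadicAlgCl ℓ →+* ℂ) = Matrix.diagonal (α v) := by
        rw [Matrix.diagonal_map (map_zero _)]
        congr 1
        ext i
        exact ι.apply_symm_apply _
      have e2 := congrArg (fun y : Matrix (Fin n) (Fin n) (PadicAlgCl ℓ) => y.map (ι : PadicAlgCl ℓ →+* ℂ)) hx
      simp only [Matrix.map_mul] at e2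
      rw [e] at e2
      exact e2)
  refine ⟨U, fun u hu => ?_⟩
  have h1 := hU u⁻¹ (inv_mem hu)
  have h2 := congrArg (fun y : GL (Fin n) (PadicAlgCl ℓ) => (y : Matrix (Fin n) (Fin n) (PadicAlgCl ℓ))) h1
  simp only [contra_val, inv_inv, Units.val_one] at h2
  apply Units.ext
  have h3 := congrArg Matrix.transpose h2
  rw [Matrix.transpose_transpose, Matrix.transpose_one] at h3
  rw [h3, Units.val_one]

/-- **irreducibility** -/
theorem irr_core (S : Set (HeightOneSpectrum (𝓞 K))) (hS : S.Finite)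
    (α : HeightOneSpectrum (𝓞 K) → Fin n → ℂ)
    (c : ℝ) (hc2 : c < 2) (hRS : ∃ᶠ N : ℕ in atTop,
      ∑ v ∈ (Pool.Agent.W352.ChAbs.finite_le (K := K) N).toFinset, (open scoped Classical in if v ∈ S then 0 else ‖∑ i, α v i‖ ^ 2) ≤
        c * ({v : HeightOneSpectrum (𝓞 K) | Ideal.absNorm v.asIdeal ≤ N}.ncard : ℝ))
    {k : Type} [Field k] [CharZero k] (ι : k ≃+* ℂ) (ρ : GK K →* GL (Fin n) k) (S' : Set (HeightOneSpectrum (𝓞 K))) (hS' : S'.Finite)
    (hSS : S ⊆ S') (hc : ∀ v ∉ S', CorrK ρ v fun i => ι.symm (α v i))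
    (U : OpenNormalSubgroup (GK K)) (hU : ∀ u ∈ U.toSubgroup, ρ u = 1) (W : Submodule k (Fin n → k)) (hW : Stable ρ W) :
    W = ⊥ ∨ W = ⊤ := by
  classical
  by_contra hno
  rw [not_or] at hno
  haveI : U.toSubgroup.Normal := U.isNormal'
  have hUo : IsOpen (U.toSubgroup : Set (GK K)) := U.isOpen'
  haveI : Finite (GK K ⧸ U.toSubgroup) := Subgroup.quotient_finite_of_isOpen _ hUo
  haveI := Fintype.ofFinite (GK K ⧸ U.toSubgroup)
  have hle : U.toSubgroup ≤ ρ.ker := fun u hu => hU u hu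
  have hfin : Finite (GK K ⧸ ρ.ker) := Subgroup.quotient_finite_of_isOpen _ (Subgroup.isOpen_mono hle hUo)
  obtain ⟨W', hW', hcompl⟩ := semisimple_of_finite ρ hfin W hW
  let r : (GK K ⧸ U.toSubgroup) →* GL (Fin n) k := QuotientGroup.lift U.toSubgroup ρ hle
  have hr : ∀ σ : GK K, r (QuotientGroup.mk σ) = ρ σ := fun σ => rfl
  have hrW : ∀ {W : Submodule k (Fin n → k)}, Stable ρ W → Stable r W := by
    intro W hW q w hw
    obtain ⟨σ, rfl⟩ := QuotientGroup.mk_surjective q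
    exact hW σ w hw
  obtain ⟨m, hm2, hm⟩ := mean_ge_two r W W' (hrW hW) (hrW hW') hcompl hno.1 hno.2
  obtain ⟨M, hM, hMp⟩ := exists_pow ρ hfin
  have hconj : ∀ σ : GK K, ι (ρ σ⁻¹ : Matrix (Fin n) (Fin n) k).trace = starRingEnd ℂ (ι (ρ σ : Matrix (Fin n) (Fin n) k).trace) := by
    intro σ
    rw [← trace_map_iso, ← trace_map_iso]
    refine trace_inv_conj _ _ ?_ M hM ?_
    · rw [← Matrix.map_mul, ← Units.val_mul, ← map_mul, mul_inv_cancel, map_one, Units.val_one,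
        Matrix.map_one _ (map_zero _) (map_one _)]
    · have h1 := congrArg (fun y : GL (Fin n) k => ((y : Matrix (Fin n) (Fin n) k).map (ι : k →+* ℂ))) (hMp σ)
      simp only [Units.val_pow_eq_pow_val, Units.val_one] at h1
      rw [Matrix.map_pow, Matrix.map_one _ (map_zero _) (map_one _)] at h1
      exact h1
  set f : GK K → ℝ := fun σ => ‖ι (ρ σ : Matrix (Fin n) (Fin n) k).trace‖ ^ 2 with hf
  have hsum : (∑ q : GK K ⧸ U.toSubgroup, f q.out) / (Nat.card (GK K ⧸ U.toSubgroup) : ℝ) = m := by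
    have h1 := congrArg ι hm
    rw [map_mul, map_inv₀, map_natCast, map_sum, map_natCast] at h1
    have h2 : ∀ q : GK K ⧸ U.toSubgroup, ι ((r q⁻¹ : Matrix (Fin n) (Fin n) k).trace * (r q : Matrix (Fin n) (Fin n) k).trace) = ((f q.out : ℝ) : ℂ) := by
      intro q
      have e1 : r q = ρ q.out := by rw [← hr, QuotientGroup.out_eq']
      have e2 : r q⁻¹ = ρ (q.out)⁻¹ := by rw [map_inv, map_inv, e1]
      rw [e1, e2, map_mul, hconj, mul_comm, Complex.mul_conj, Complex.normSq_eq_norm_sq]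
    rw [Finset.sum_congr rfl fun q _ => h2 q, ← Complex.ofReal_sum] at h1
    have h3 : (((∑ q : GK K ⧸ U.toSubgroup, f q.out) / (Nat.card (GK K ⧸ U.toSubgroup) : ℝ) : ℝ) : ℂ) = ((m : ℝ) : ℂ) := by
      rw [Complex.ofReal_div, Complex.ofReal_natCast, Complex.ofReal_natCast, ← h1]
      ring
    exact_mod_cast h3
  obtain ⟨c', hc'1, hc'2⟩ := exists_between hc2
  have hm2' : (2 : ℝ) ≤ m := by exact_mod_cast hm2
  have hev := avg_ge U f (fun σ => by positivity) (fun σ τ => by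
      show ‖ι (ρ (τ * σ * τ⁻¹) : Matrix (Fin n) (Fin n) k).trace‖ ^ 2 = _
      rw [map_mul, map_mul, map_inv, Units.val_mul, Units.val_mul, Matrix.trace_mul_comm, ← mul_assoc,
        ← Units.val_mul, inv_mul_cancel, Units.val_one, one_mul])
    (fun σ u hu => by
      show ‖ι (ρ (σ * u) : Matrix (Fin n) (Fin n) k).trace‖ ^ 2 = _
      rw [map_mul, hU u hu, mul_one])
    (fun v => if v ∈ S then 0 else ‖∑ i, α v i‖ ^ 2) (fun v => by positivity) S' hS'
    (fun v hv σ hσ => by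
      have hvS : v ∉ S := fun h => hv (hSS h)
      show (if v ∈ S then 0 else ‖∑ i, α v i‖ ^ 2) = ‖ι (ρ σ : Matrix (Fin n) (Fin n) k).trace‖ ^ 2
      rw [if_neg hvS]
      obtain ⟨h, hh⟩ := (hc v hv).2 σ⁻¹ (by rwa [inv_inv])
      have e1 : ι (ρ σ⁻¹ : Matrix (Fin n) (Fin n) k).trace = ∑ i, α v i := by
        rw [hh, Matrix.trace_mul_comm, ← mul_assoc, ← Units.val_mul, inv_mul_cancel, Units.val_one, one_mul,
          Matrix.trace_diagonal, map_sum]
        exact Finset.sum_congr rfl fun i _ => ι.apply_symm_apply _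
      rw [← e1, hconj, RCLike.norm_conj]) c' (by rw [hsum]; linarith)
  by_cases hc0 : c < 0
  · obtain ⟨N, hN⟩ := hRS.exists
    have h1 : (0 : ℝ) ≤ ∑ v ∈ (Pool.Agent.W352.ChAbs.finite_le (K := K) N).toFinset, (if v ∈ S then 0 else ‖∑ i, α v i‖ ^ 2) :=
      Finset.sum_nonneg fun v _ => by positivity
    have h3 : (1 : ℝ) ≤ ({v : HeightOneSpectrum (𝓞 K) | Ideal.absNorm v.asIdeal ≤ N}.ncard : ℝ) ∨
        ({v : HeightOneSpectrum (𝓞 K) | Ideal.absNorm v.asIdeal ≤ N}.ncard : ℝ) = 0 := by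
      rcases Nat.eq_zero_or_pos ({v : HeightOneSpectrum (𝓞 K) | Ideal.absNorm v.asIdeal ≤ N}.ncard) with h | h
      · right; exact_mod_cast h
      · left; exact_mod_cast h
    -- use an eventually nonempty set
    obtain ⟨N, ⟨hN, hN2⟩, hN3⟩ := ((hRS.and_eventually hev).and_eventually (tendsto_pi.eventually_gt_atTop 0)).exists
    have h4 : (0 : ℝ) ≤ ({v : HeightOneSpectrum (𝓞 K) | Ideal.absNorm v.asIdeal ≤ N}.ncard : ℝ) := Nat.cast_nonneg _
    have h6 := (avg_ge U f (fun σ => by positivity) (fun σ τ => by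
      show ‖ι (ρ (τ * σ * τ⁻¹) : Matrix (Fin n) (Fin n) k).trace‖ ^ 2 = _
      rw [map_mul, map_mul, map_inv, Units.val_mul, Units.val_mul, Matrix.trace_mul_comm, ← mul_assoc,
        ← Units.val_mul, inv_mul_cancel, Units.val_one, one_mul])
    (fun σ u hu => by
      show ‖ι (ρ (σ * u) : Matrix (Fin n) (Fin n) k).trace‖ ^ 2 = _
      rw [map_mul, hU u hu, mul_one])
    (fun v => if v ∈ S then 0 else ‖∑ i, α v i‖ ^ 2) (fun v => by positivity) S' hS'
    (fun v hv σ hσ => by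
      have hvS : v ∉ S := fun h => hv (hSS h)
      show (if v ∈ S then 0 else ‖∑ i, α v i‖ ^ 2) = ‖ι (ρ σ : Matrix (Fin n) (Fin n) k).trace‖ ^ 2
      rw [if_neg hvS]
      obtain ⟨h, hh⟩ := (hc v hv).2 σ⁻¹ (by rwa [inv_inv])
      have e1 : ι (ρ σ⁻¹ : Matrix (Fin n) (Fin n) k).trace = ∑ i, α v i := by
        rw [hh, Matrix.trace_mul_comm, ← mul_assoc, ← Units.val_mul, inv_mul_cancel, Units.val_one, one_mul,
          Matrix.trace_diagonal, map_sum]
        exact Finset.sum_congr rfl fun i _ => ι.apply_symm_apply _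
      rw [← e1, hconj, RCLike.norm_conj]) 1 (by rw [hsum]; linarith))
    obtain ⟨N, ⟨hN, hN2⟩, hN3⟩ := ((hRS.and_eventually h6).and_eventually (tendsto_pi.eventually_gt_atTop 0)).exists
    have h4 : (0 : ℝ) ≤ ({v : HeightOneSpectrum (𝓞 K) | Ideal.absNorm v.asIdeal ≤ N}.ncard : ℝ) := Nat.cast_nonneg _
    have h5 : c * ({v : HeightOneSpectrum (𝓞 K) | Ideal.absNorm v.asIdeal ≤ N}.ncard : ℝ) ≤ 0 :=
      mul_nonpos_of_nonpos_of_nonneg hc0.le h4
    have h7 : (0 : ℝ) < 1 * (Nat.primeCounting N : ℝ) := by rwa [one_mul]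
    exact absurd (h7.trans hN2) (not_lt.2 (hN.trans h5))
  · push Not at hc0
    have hε : 0 < (c' - c) / 2 := by linarith
    obtain ⟨N, ⟨⟨hN, hN2⟩, hN3⟩, hN4⟩ := (((hRS.and_eventually hev).and_eventually (tendsto_pi.eventually_gt_atTop 0)).and_eventually
      (count_le (K := K) hε)).exists
    have h1 : c * ({v : HeightOneSpectrum (𝓞 K) | Ideal.absNorm v.asIdeal ≤ N}.ncard : ℝ) ≤
        c * ((1 + (c' - c) / 2) * (Nat.primeCounting N : ℝ)) := mul_le_mul_of_nonneg_left hN4 hc0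
    have h2 : c * (1 + (c' - c) / 2) ≤ c' := by nlinarith
    have h3 : c * ((1 + (c' - c) / 2) * (Nat.primeCounting N : ℝ)) ≤ c' * (Nat.primeCounting N : ℝ) := by
      rw [← mul_assoc]
      exact mul_le_mul_of_nonneg_right h2 hN3.le
    exact absurd hN2 (not_lt.2 (hN.trans (h1.trans h3)))

end Pool.Agent.Y801.LG
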