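import Pool.Agent.Y801.LG.Irr

/-! Irreducibility of representations of Artin type: translation lemmas. -/

set_option autoImplicit false
set_option linter.all false

namespace Pool.Agent.Y801.LG

open Module MeasureTheory Topology Filter NumberField IsDedekindDomain Pool.Agent.Y800 Polynomial
open Pool.Agent.W401.Cheb Pool.Agent.W528.Ord Pool.Agent.Y802

theorem exists_finset_of_le {ι k : Type*} [Fintype ι] [DecidableEq ι] (α : ι → k) (s : Multiset k)
    (h : s ≤ (Finset.univ : Finset ι).val.map α) : ∃ J : Finset ι, s = J.val.map α := by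
  classical
  induction s using Quotient.inductionOn with
  | _ l =>
    have e : (Finset.univ : Finset ι).val = ((Finset.univ : Finset ι).toList : Multiset ι) :=
      (Finset.coe_toList _).symm
    rw [e] at h
    have h1 : l.Subperm ((Finset.univ : Finset ι).toList.map α) := h
    obtain ⟨l', hl', hsub⟩ := h1
    obtain ⟨l'', hl'', rfl⟩ := List.sublist_map_iff.1 hsub
    have hnd : l''.Nodup := (Finset.nodup_toList _).sublist hl''
    refine ⟨l''.toFinset, ?_⟩
    rw [List.toFinset_val, hnd.dedup]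
    show (l : Multiset k) = ((l''.map α : List k) : Multiset k)
    exact (Multiset.coe_eq_coe.2 hl').symm

theorem rootsNoSub_diag {n : ℕ} {a : Fin n → ℂ} (h1 : ∀ i, ∃ m : ℕ, 0 < m ∧ a i ^ m = 1)
    (h2 : ∀ J : Finset (Fin n), J.Nonempty → ∑ i ∈ J, a i ≠ 0) : RootsNoSub (Matrix.diagonal a) := by
  have e : (Matrix.diagonal a).charpoly.roots = Finset.univ.val.map a := by
    rw [charpoly_diag]
    have e : (∏ i, (X - C (a i)) : ℂ[X]) = ((Finset.univ.val.map a).map fun a => X - C a).prod := by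
      rw [Multiset.map_map]
      rfl
    rw [e, roots_multiset_prod_X_sub_C]
  refine ⟨fun z hz => ?_, fun s hs hs0 => ?_⟩
  · rw [e, Multiset.mem_map] at hz
    obtain ⟨i, _, rfl⟩ := hz
    exact h1 i
  · rw [e] at hs
    obtain ⟨J, rfl⟩ := exists_finset_of_le a s hs
    refine h2 J ?_
    rw [Finset.nonempty_iff_ne_empty]
    rintro rfl
    exact hs0 rfl

theorem finite_range {K : Type} [Field K] [NumberField K] {H : Type*} [Group H] (ρ : GK K →* H)
    (U : OpenNormalSubgroup (GK K)) (hU : ∀ u ∈ U.toSubgroup, ρ u = 1) : (Set.range ρ).Finite := by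
  have hfin : Finite (GK K ⧸ ρ.ker) :=
    Subgroup.quotient_finite_of_isOpen _ (Subgroup.isOpen_mono (fun u hu => hU u hu) U.isOpen')
  have e := QuotientGroup.quotientKerEquivRange ρ
  have : Finite ρ.range := Finite.of_equiv _ e.toEquiv
  exact Set.toFinite (ρ.range : Set H)

theorem sum_eq {K : Type} [Field K] [NumberField K] (S : Set (HeightOneSpectrum (𝓞 K))) {n : ℕ}
    (α : HeightOneSpectrum (𝓞 K) → Fin n → ℂ) (X : ℕ) :
    ∑ v ∈ (Pool.Agent.W352.ChAbs.finite_le (K := K) X).toFinset, (open scoped Classical in if v ∈ S then 0 else ‖∑ i, α v i‖ ^ 2) =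
      ∑ᶠ v ∈ {v : HeightOneSpectrum (𝓞 K) | Ideal.absNorm v.asIdeal ≤ X ∧ v ∉ S}, ‖∑ i, α v i‖ ^ 2 := by
  classical
  have hf : {v : HeightOneSpectrum (𝓞 K) | Ideal.absNorm v.asIdeal ≤ X ∧ v ∉ S}.Finite :=
    (Pool.Agent.W352.ChAbs.finite_le (K := K) X).subset fun v hv => hv.1
  rw [finsum_mem_eq_finite_toFinset_sum _ hf]
  have e : hf.toFinset = (Pool.Agent.W352.ChAbs.finite_le (K := K) X).toFinset.filter fun v => v ∉ S := by
    ext v
    simp
  rw [e, Finset.sum_filter]
  refine Finset.sum_congr rfl fun v _ => ?_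
  by_cases h : v ∈ S <;> simp [h]

end Pool.Agent.Y801.LG
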