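import Pool.Agent.Y801.LG.NF

/-! Galois representations of Artin type with values in L-groups. -/

set_option autoImplicit false
set_option linter.all false

namespace Pool.Agent.Y801.LG

open Module MeasureTheory Topology Filter NumberField IsDedekindDomain Pool.Agent.Y800 Polynomial
open Pool.Agent.W401.Cheb Pool.Agent.W528.Ord Pool.Agent.Y802

variable {K : Type} [Field K] [NumberField K] {N : ℕ}

/-- the points over `k` of the coset at `σ` -/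
def Coset (I : GK K → Set (MvPolynomial (Fin N × Fin N) ℚ)) (k : Type) [Field k] [CharZero k] (σ : GK K) :
    Set (GL (Fin N) k) :=
  {g | ∀ f ∈ I σ, MvPolynomial.eval₂ (Rat.castHom k) (fun x => (g : Matrix (Fin N) (Fin N) k) x.1 x.2) f = 0}

theorem coset_map {I : GK K → Set (MvPolynomial (Fin N × Fin N) ℚ)} {k k' : Type} [Field k] [CharZero k]
    [Field k'] [CharZero k'] (j : k →+* k') {σ : GK K} {g : GL (Fin N) k} (hg : g ∈ Coset I k σ) :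
    Matrix.GeneralLinearGroup.map j g ∈ Coset I k' σ := by
  intro f hf
  have h1 := congrArg j (hg f hf)
  rw [map_zero, MvPolynomial.eval₂_comp_left] at h1
  have e : j.comp (Rat.castHom k) = Rat.castHom k' := Subsingleton.elim _ _
  rw [e] at h1
  exact h1

def Diagble {k : Type*} [Field k] {n : ℕ} (A : Matrix (Fin n) (Fin n) k) : Prop :=
  ∃ (g : GL (Fin n) k) (d : Fin n → k), A = (g : Matrix (Fin n) (Fin n) k) * Matrix.diagonal d *
      ((g⁻¹ : GL (Fin n) k) : Matrix (Fin n) (Fin n) k)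

theorem Diagble.map {k k' : Type*} [Field k] [Field k'] (j : k →+* k') {n : ℕ} {A : Matrix (Fin n) (Fin n) k}
    (h : Diagble A) : Diagble (A.map j) := by
  obtain ⟨g, d, h⟩ := h
  refine ⟨Matrix.GeneralLinearGroup.map j g, fun i => j (d i), ?_⟩
  rw [← map_inv]
  show A.map j = (g : Matrix (Fin n) (Fin n) k).map j *
      Matrix.diagonal (fun i => j (d i)) * ((g⁻¹ : GL (Fin n) k) : Matrix (Fin n) (Fin n) k).map j
  rw [h, Matrix.map_mul, Matrix.map_mul]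
  congr 2
  exact Matrix.diagonal_map (map_zero j)

theorem Diagble.conj {k : Type*} [Field k] {n : ℕ} {A : Matrix (Fin n) (Fin n) k}
    (h : Diagble A) (x : GL (Fin n) k) :
    Diagble ((x : Matrix (Fin n) (Fin n) k) * A * ((x⁻¹ : GL (Fin n) k) : Matrix (Fin n) (Fin n) k)) := by
  obtain ⟨g, d, h⟩ := h
  refine ⟨x * g, d, ?_⟩
  rw [h, mul_inv_rev, Units.val_mul, Units.val_mul]
  simp only [mul_assoc]

/-- the eigenvalues are roots of unity and no nonempty subsum vanishes -/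
def RootsNoSub {k : Type*} [Field k] {n : ℕ} (A : Matrix (Fin n) (Fin n) k) : Prop :=
  (∀ z ∈ A.charpoly.roots, ∃ m : ℕ, 0 < m ∧ z ^ m = 1) ∧
    ∀ s : Multiset k, s ≤ A.charpoly.roots → s ≠ 0 → s.sum ≠ 0

theorem RootsNoSub.of_map {k k' : Type*} [Field k] [IsAlgClosed k] [Field k'] (j : k →+* k') {n : ℕ}
    {A : Matrix (Fin n) (Fin n) k} (h : RootsNoSub (A.map j)) : RootsNoSub A := by
  have e : (A.map j).charpoly.roots = A.charpoly.roots.map j := by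
    rw [Matrix.charpoly_map]
    exact (IsAlgClosed.splits A.charpoly).roots_map j
  refine ⟨fun z hz => ?_, fun s hs hs0 h0 => ?_⟩
  · obtain ⟨m, hm, hzm⟩ := h.1 (j z) (by rw [e]; exact Multiset.mem_map_of_mem _ hz)
    refine ⟨m, hm, j.injective ?_⟩
    rw [map_pow, hzm, map_one]
  · refine h.2 (s.map j) (by rw [e]; exact Multiset.map_le_map hs) ?_ ?_
    · rwa [Ne, Multiset.map_eq_zero]
    · rw [← map_multiset_sum, h0, map_zero]

theorem RootsNoSub.conj {k : Type*} [Field k] {n : ℕ} {A : Matrix (Fin n) (Fin n) k} (h : RootsNoSub A)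
    (x : GL (Fin n) k) :
    RootsNoSub ((x : Matrix (Fin n) (Fin n) k) * A * ((x⁻¹ : GL (Fin n) k) : Matrix (Fin n) (Fin n) k)) := by
  unfold RootsNoSub
  rw [charpoly_conj]
  exact h

theorem freq_remove (P : HeightOneSpectrum (𝓞 K) → Prop) (S : Set (HeightOneSpectrum (𝓞 K))) (hS : S.Finite)
    {c c' : ℝ} (hc : c' < c) (h : ∃ᶠ N in atTop, c ≤ dens P N) :
    ∃ᶠ N in atTop, c' ≤ dens (fun v => P v ∧ v ∉ S) N := by
  have h1 : ∀ᶠ N in atTop, dens (fun v : HeightOneSpectrum (𝓞 K) => v ∈ S) N < c - c' := by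
    by_contra hno
    exact not_notNull_finite (P := fun v : HeightOneSpectrum (𝓞 K) => v ∈ S) hS
      ⟨c - c', by linarith, fun h' => hno (h'.mono fun N hN => not_le.1 hN)⟩
  refine (h.and_eventually h1).mono ?_
  rintro N ⟨h2, h3⟩
  have h4 := dens_mono (P := P) (Q := fun v => (P v ∧ v ∉ S) ∨ v ∈ S) (fun v hv => by
    by_cases hvS : v ∈ S
    · exact Or.inr hvS
    · exact Or.inl ⟨hv, hvS⟩) N
  have h5 := dens_or (fun v => P v ∧ v ∉ S) (fun v : HeightOneSpectrum (𝓞 K) => v ∈ S) N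
  linarith

theorem notNull_remove (P : HeightOneSpectrum (𝓞 K) → Prop) (S : Set (HeightOneSpectrum (𝓞 K))) (hS : S.Finite)
    (h : NotNull P) : NotNull fun v => P v ∧ v ∉ S := by
  obtain ⟨c, hc, hf⟩ := h
  exact ⟨c / 2, by positivity, freq_remove P S hS (by linarith) hf⟩

/-- The hypothesis: for a set of positive upper density the eigenvalues are roots of unity without
vanishing subsums, or few traces. -/
def Hyp (n : ℕ) (A : HeightOneSpectrum (𝓞 K) → Matrix (Fin n) (Fin n) ℂ) (S : Set (HeightOneSpectrum (𝓞 K))) : Prop :=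
  (NotNull fun v => v ∉ S ∧ RootsNoSub (A v)) ∨
  ∃ (T : Finset ℂ) (c : ℝ), 1 - 1 / (n : ℝ) ^ 2 < c ∧ ∃ᶠ N in atTop, c ≤ dens (fun v => v ∉ S ∧ (A v).trace ∈ T) N

/-- **open kernel**, for representations whose Frobenius elements are diagonalizable -/
theorem open_ker {ℓ : ℕ} [Fact ℓ.Prime] {n : ℕ} (hn : 0 < n) (ρ : GK K →* GL (Fin n) (PadicAlgCl ℓ)) (hρ : Continuous ρ)
    (ι : PadicAlgCl ℓ ≃+* ℂ) (S S' : Set (HeightOneSpectrum (𝓞 K))) (hS' : S'.Finite)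
    (A : HeightOneSpectrum (𝓞 K) → Matrix (Fin n) (Fin n) ℂ) (hA : Hyp n A S)
    (hd : ∀ v ∉ S', ∀ σ, IsFrob v σ → Diagble (ρ σ : Matrix (Fin n) (Fin n) (PadicAlgCl ℓ)))
    (hm : ∀ v ∉ S', v ∉ S → ∃ σ, IsFrob v σ ∧ ∃ x : GL (Fin n) ℂ, (ρ σ : Matrix (Fin n) (Fin n) (PadicAlgCl ℓ)).map ι =
      (x : Matrix (Fin n) (Fin n) ℂ) * A v * ((x⁻¹ : GL (Fin n) ℂ) : Matrix (Fin n) (Fin n) ℂ)) :
    ∃ U : OpenNormalSubgroup (GK K), ∀ u ∈ U.toSubgroup, ρ u = 1 := by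
  classical
  have hc : Continuous fun g => (ρ g : Matrix (Fin n) (Fin n) (PadicAlgCl ℓ)) := Units.continuous_val.comp hρ
  rcases hA with hA | ⟨T, c, hc1, hA⟩
  · obtain ⟨U, hU⟩ := NFunipA ρ hρ _ (notNull_remove _ S' hS' hA) (by
      rintro v ⟨⟨hvS, hv1⟩, hv2⟩
      obtain ⟨σ, hσ, x, hx⟩ := hm v hv2 hvS
      have h1 := hv1.conj x
      rw [← hx] at h1
      have h2 := RootsNoSub.of_map (ι : PadicAlgCl ℓ →+* ℂ) (A := (ρ σ : Matrix (Fin n) (Fin n) (PadicAlgCl ℓ))) h1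
      exact ⟨σ, hσ, h2.1, h2.2⟩)
    exact ⟨U, ker_of_diag ρ hc S' hS' hd U hU⟩
  · obtain ⟨c', hc1', hc2'⟩ := exists_between hc1
    obtain ⟨U, hU⟩ := NFunipB ρ hρ (T.image ι.symm) _ c' hc1' hn (freq_remove _ S' hS' hc2' hA) (by
      rintro v ⟨⟨hvS, hv1⟩, hv2⟩
      obtain ⟨σ, hσ, x, hx⟩ := hm v hv2 hvS
      refine ⟨σ, hσ, ?_⟩
      have h1 : ι (ρ σ : Matrix (Fin n) (Fin n) (PadicAlgCl ℓ)).trace = (A v).trace := by
        have h2 : ((ρ σ : Matrix (Fin n) (Fin n) (PadicAlgCl ℓ)).map (ι : PadicAlgCl ℓ →+* ℂ)).trace =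
            (ι : PadicAlgCl ℓ →+* ℂ) (ρ σ : Matrix (Fin n) (Fin n) (PadicAlgCl ℓ)).trace := map_trace_aux _
        have h3 : ((ρ σ : Matrix (Fin n) (Fin n) (PadicAlgCl ℓ)).map (ι : PadicAlgCl ℓ →+* ℂ)).trace = (A v).trace := by
          show ((ρ σ : Matrix (Fin n) (Fin n) (PadicAlgCl ℓ)).map ι).trace = _
          rw [hx, Matrix.trace_mul_comm, ← mul_assoc, ← Units.val_mul, inv_mul_cancel, Units.val_one, one_mul]
        exact h2.symm.trans h3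
      rw [Finset.mem_image]
      exact ⟨_, hv1, by rw [← h1, RingEquiv.symm_apply_apply]⟩)
    exact ⟨U, ker_of_diag ρ hc S' hS' hd U hU⟩

/-- unramified, and the Frobenius element is conjugate to `s` under the points of the neutral coset -/
def Matches (I : GK K → Set (MvPolynomial (Fin N × Fin N) ℚ)) {k : Type} [Field k] (j : k →+* ℂ)
    (r : GK K →* GL (Fin N) k) (v : HeightOneSpectrum (𝓞 K)) (φ : GK K) (s : GL (Fin N) ℂ) : Prop :=
  (∀ τ, IsInert v τ → r τ = 1) ∧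
    ∃ g ∈ Coset I ℂ 1, Matrix.GeneralLinearGroup.map j (r φ) = g * s * g⁻¹

section main

variable (I : GK K → Set (MvPolynomial (Fin N × Fin N) ℚ))
  (hone : (1 : GL (Fin N) ℂ) ∈ Coset I ℂ 1)
  (hmul : ∀ (σ τ : GK K) (g h : GL (Fin N) ℂ), g ∈ Coset I ℂ σ → h ∈ Coset I ℂ τ → g * h ∈ Coset I ℂ (σ * τ))
  (hinv : ∀ (σ : GK K) (g : GL (Fin N) ℂ), g ∈ Coset I ℂ σ → g⁻¹ ∈ Coset I ℂ σ⁻¹)

include hmul hinv

/-- two representations which match almost everywhere are elementwise conjugate -/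
theorem elementwise (R₁ R₂ : GK K →* GL (Fin N) ℂ) (U₁ U₂ : OpenNormalSubgroup (GK K))
    (hU₁ : ∀ u ∈ U₁.toSubgroup, R₁ u = 1) (hU₂ : ∀ u ∈ U₂.toSubgroup, R₂ u = 1)
    (hR₁ : ∀ σ, R₁ σ ∈ Coset I ℂ σ) (hR₂ : ∀ σ, R₂ σ ∈ Coset I ℂ σ)
    (S : Set (HeightOneSpectrum (𝓞 K))) (hS : S.Finite) (φ : HeightOneSpectrum (𝓞 K) → GK K)
    (hφ : ∀ v ∉ S, IsFrob v (φ v)) (s : HeightOneSpectrum (𝓞 K) → GL (Fin N) ℂ)
    (h₁ : ∀ v ∉ S, Matches I (RingHom.id ℂ) R₁ v (φ v) (s v))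
    (h₂ : ∀ v ∉ S, Matches I (RingHom.id ℂ) R₂ v (φ v) (s v)) (σ : GK K) :
    ∃ g ∈ Coset I ℂ 1, R₁ σ = g * R₂ σ * g⁻¹ := by
  obtain ⟨v, hv, σ', hσ', τ, hτ⟩ := exists_frobK (U₁ ⊓ U₂) S hS σ
  have e1 : R₁ σ = R₁ (τ * σ' * τ⁻¹) := by
    have := hU₁ _ hτ.1
    rw [map_mul, map_inv, mul_inv_eq_one] at this
    exact this.symm
  have e2 : R₂ σ = R₂ (τ * σ' * τ⁻¹) := by
    have := hU₂ _ hτ.2
    rw [map_mul, map_inv, mul_inv_eq_one] at this
    exact this.symm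
  obtain ⟨x, i, hi, hx⟩ := Pool.Agent.W401.Frob.conj_frob v (φ v) σ' (hφ v hv) hσ'
  obtain ⟨i1, g₁, hg₁, hs₁⟩ := h₁ v hv
  obtain ⟨i2, g₂, hg₂, hs₂⟩ := h₂ v hv
  have hid : ∀ g : GL (Fin N) ℂ, Matrix.GeneralLinearGroup.map (RingHom.id ℂ) g = g := by
    intro g
    apply Units.ext
    show (g : Matrix (Fin N) (Fin N) ℂ).map (RingHom.id ℂ) = _
    ext a b; rfl
  rw [hid] at hs₁ hs₂
  have f1 : R₁ σ = R₁ (τ * x) * (g₁ * s v * g₁⁻¹) * (R₁ (τ * x))⁻¹ := by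
    rw [e1, hx, ← hs₁, ← map_inv, ← map_mul, ← map_mul]
    have : τ * (x * φ v * x⁻¹ * i) * τ⁻¹ = (τ * x) * φ v * (τ * x)⁻¹ * (τ * i * τ⁻¹) := by group
    rw [this, map_mul, map_mul R₁ (τ * i) τ⁻¹, map_mul R₁ τ i, i1 i hi, mul_one, ← map_mul, mul_inv_cancel, map_one, mul_one]
  have f2 : R₂ σ = R₂ (τ * x) * (g₂ * s v * g₂⁻¹) * (R₂ (τ * x))⁻¹ := by
    rw [e2, hx, ← hs₂, ← map_inv, ← map_mul, ← map_mul]
    have : τ * (x * φ v * x⁻¹ * i) * τ⁻¹ = (τ * x) * φ v * (τ * x)⁻¹ * (τ * i * τ⁻¹) := by group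
    rw [this, map_mul, map_mul R₂ (τ * i) τ⁻¹, map_mul R₂ τ i, i2 i hi, mul_one, ← map_mul, mul_inv_cancel, map_one, mul_one]
  refine ⟨R₁ (τ * x) * g₁ * g₂⁻¹ * (R₂ (τ * x))⁻¹, ?_, ?_⟩
  · have h3 := hmul _ _ _ _ (hmul _ _ _ _ (hmul _ _ _ _ (hR₁ (τ * x)) hg₁) (hinv _ _ hg₂)) (hinv _ _ (hR₂ (τ * x)))
    have e : τ * x * 1 * (1 : GK K)⁻¹ * (τ * x)⁻¹ = 1 := by group
    rwa [e] at h3
  · rw [f1, f2]
    group

end main

end Pool.Agent.Y801.LG
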