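import Pool.Agent.Y801.LG.Main
import Pool.Agent.Y800.Ext

/-! Galois representations of Artin type with values in L-groups: main theorem. -/

set_option autoImplicit false
set_option linter.all false

namespace Pool.Agent.Y801.LG

open Module MeasureTheory Topology Filter NumberField IsDedekindDomain Pool.Agent.Y800 Polynomial
open Pool.Agent.W401.Cheb Pool.Agent.W528.Ord Pool.Agent.Y802

variable {K : Type} [Field K] [NumberField K] {N : ℕ}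

theorem map_id_GL (g : GL (Fin N) ℂ) : Matrix.GeneralLinearGroup.map (RingHom.id ℂ) g = g := by
  apply Units.ext
  show (g : Matrix (Fin N) (Fin N) ℂ).map (RingHom.id ℂ) = _
  ext a b; rfl

theorem map_symm_GL {k : Type} [Field k] (ι : k ≃+* ℂ) (g : GL (Fin N) ℂ) :
    Matrix.GeneralLinearGroup.map (ι : k →+* ℂ) (Matrix.GeneralLinearGroup.map (ι.symm : ℂ →+* k) g) = g := by
  apply Units.ext
  show ((g : Matrix (Fin N) (Fin N) ℂ).map ι.symm).map ι = _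
  ext a b
  exact ι.apply_symm_apply _

theorem frob_diag {k : Type} [Field k] (ι : k ≃+* ℂ) (I : GK K → Set (MvPolynomial (Fin N × Fin N) ℚ))
    (r : GK K →* GL (Fin N) k) (v : HeightOneSpectrum (𝓞 K)) (φ σ : GK K) (hφ : IsFrob v φ) (hσ : IsFrob v σ)
    (s : GL (Fin N) ℂ) (hs : Diagble (s : Matrix (Fin N) (Fin N) ℂ)) (h : Matches I (ι : k →+* ℂ) r v φ s) :
    Diagble (r σ : Matrix (Fin N) (Fin N) k) := by
  obtain ⟨x, i, hi, hx⟩ := Pool.Agent.W401.Frob.conj_frob v φ σ hφ hσ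
  obtain ⟨h1, g, hg, h2⟩ := h
  have h3 : Diagble ((r φ : Matrix (Fin N) (Fin N) k).map (ι : k →+* ℂ)) := by
    have := hs.conj g
    have e := congrArg (fun y : GL (Fin N) ℂ => (y : Matrix (Fin N) (Fin N) ℂ)) h2
    simp only [Units.val_mul] at e
    rw [← e] at this
    exact this
  have h4 := h3.map (ι.symm : ℂ →+* k)
  have e4 : ((r φ : Matrix (Fin N) (Fin N) k).map (ι : k →+* ℂ)).map (ι.symm : ℂ →+* k) = (r φ : Matrix (Fin N) (Fin N) k) := by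
    ext a b
    exact ι.symm_apply_apply _
  rw [e4] at h4
  have h5 := h4.conj (r x)
  rw [hx, map_mul, h1 i hi, mul_one, map_mul, map_mul, map_inv, Units.val_mul, Units.val_mul]
  exact h5

theorem main (I : GK K → Set (MvPolynomial (Fin N × Fin N) ℚ))
    (hone : (1 : GL (Fin N) ℂ) ∈ Coset I ℂ 1)
    (hmul : ∀ (σ τ : GK K) (g h : GL (Fin N) ℂ), g ∈ Coset I ℂ σ → h ∈ Coset I ℂ τ → g * h ∈ Coset I ℂ (σ * τ))
    (hinv : ∀ (σ : GK K) (g : GL (Fin N) ℂ), g ∈ Coset I ℂ σ → g⁻¹ ∈ Coset I ℂ σ⁻¹)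
    (hN : 0 < N) (S : Set (HeightOneSpectrum (𝓞 K))) (hS : S.Finite) (φ : HeightOneSpectrum (𝓞 K) → GK K)
    (hφ : ∀ v ∉ S, IsFrob v (φ v)) (s : HeightOneSpectrum (𝓞 K) → GL (Fin N) ℂ)
    (hss : ∀ v ∉ S, Diagble (s v : Matrix (Fin N) (Fin N) ℂ))
    (hA : Hyp N (fun v => (s v : Matrix (Fin N) (Fin N) ℂ)) S)
    (Λ : Set ℕ) (hΛ : Λ.Nonempty) (hp : ∀ ℓ ∈ Λ, ℓ.Prime)
    (h : ∀ (ℓ : ℕ) [Fact ℓ.Prime], ℓ ∈ Λ → ∃ (ι : PadicAlgCl ℓ ≃+* ℂ) (r : GK K →* GL (Fin N) (PadicAlgCl ℓ)),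
      Continuous r ∧ (∀ σ, r σ ∈ Coset I (PadicAlgCl ℓ) σ) ∧
      ∀ v ∉ S, (ℓ : 𝓞 K) ∉ v.asIdeal → Matches I (ι : PadicAlgCl ℓ →+* ℂ) r v (φ v) (s v)) :
    ∃ M : ℕ, 0 < M ∧ (∀ v ∉ S, (∃ ℓ ∈ Λ, (ℓ : 𝓞 K) ∉ v.asIdeal) → s v ^ M = 1) ∧
      (∀ v ∉ S, (∃ ℓ ∈ Λ, (ℓ : 𝓞 K) ∉ v.asIdeal) → s v ∈ Coset I ℂ (φ v)) ∧
      ∀ (ℓ : ℕ) [Fact ℓ.Prime] (ι : PadicAlgCl ℓ ≃+* ℂ), ∃ r : GK K →* GL (Fin N) (PadicAlgCl ℓ),
        Continuous r ∧ (Set.range r).Finite ∧ (∀ σ, r σ ∈ Coset I (PadicAlgCl ℓ) σ) ∧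
        ∀ v ∉ S, (∃ ℓ' ∈ Λ, (ℓ' : 𝓞 K) ∉ v.asIdeal) → Matches I (ι : PadicAlgCl ℓ →+* ℂ) r v (φ v) (s v) := by
  classical
  -- complex representations
  have hC : ∀ ℓ ∈ Λ, ∃ (R : GK K →* GL (Fin N) ℂ) (U : OpenNormalSubgroup (GK K)), (∀ u ∈ U.toSubgroup, R u = 1) ∧
      (∀ σ, R σ ∈ Coset I ℂ σ) ∧ ∀ v ∉ S, (ℓ : 𝓞 K) ∉ v.asIdeal → Matches I (RingHom.id ℂ) R v (φ v) (s v) := by
    intro ℓ hℓ
    haveI : Fact ℓ.Prime := ⟨hp ℓ hℓ⟩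
    obtain ⟨ι, r, hr, hco, hmat⟩ := h ℓ hℓ
    have hS' : (S ∪ {v : HeightOneSpectrum (𝓞 K) | (ℓ : 𝓞 K) ∈ v.asIdeal}).Finite := hS.union finite_above
    obtain ⟨U, hU⟩ := open_ker hN r hr ι S _ hS' _ hA (fun v hv σ hσ => by
      have hv1 : v ∉ S := fun hvS => hv (Or.inl hvS)
      exact frob_diag ι I r v (φ v) σ (hφ v hv1) hσ (s v) (hss v hv1) (hmat v hv1 fun hvl => hv (Or.inr hvl)))
      (fun v hv _ => by
      have hv1 : v ∉ S := fun hvS => hv (Or.inl hvS)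
      obtain ⟨_, g, hg, h2⟩ := hmat v hv1 fun hvl => hv (Or.inr hvl)
      refine ⟨φ v, hφ v hv1, g, ?_⟩
      have e := congrArg (fun y : GL (Fin N) ℂ => (y : Matrix (Fin N) (Fin N) ℂ)) h2
      exact e)
    refine ⟨(Matrix.GeneralLinearGroup.map (ι : PadicAlgCl ℓ →+* ℂ)).comp r, U, fun u hu => ?_, fun σ => ?_, fun v hv hvl => ?_⟩
    · rw [MonoidHom.comp_apply, hU u hu, map_one]
    · exact coset_map _ (hco σ)
    · obtain ⟨h1, g, hg, h2⟩ := hmat v hv hvl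
      refine ⟨fun τ hτ => by rw [MonoidHom.comp_apply, h1 τ hτ, map_one], g, hg, ?_⟩
      rw [map_id_GL]
      exact h2
  haveI : Nonempty (OpenNormalSubgroup (GK K)) :=
    ⟨(ProfiniteGrp.exist_openNormalSubgroup_sub_open_nhds_of_one (G := GK K) isOpen_univ (Set.mem_univ 1)).choose⟩
  choose! R U hU hco hmat using hC
  obtain ⟨ℓ₁, hℓ₁⟩ := hΛ
  have hel : ∀ ℓ ∈ Λ, ∀ σ, ∃ g ∈ Coset I ℂ 1, R ℓ₁ σ = g * R ℓ σ * g⁻¹ := by
    intro ℓ hℓ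
    haveI : Fact ℓ.Prime := ⟨hp ℓ hℓ⟩
    haveI : Fact ℓ₁.Prime := ⟨hp ℓ₁ hℓ₁⟩
    have hS' : (S ∪ ({v : HeightOneSpectrum (𝓞 K) | (ℓ : 𝓞 K) ∈ v.asIdeal} ∪
      {v : HeightOneSpectrum (𝓞 K) | (ℓ₁ : 𝓞 K) ∈ v.asIdeal})).Finite := hS.union (finite_above.union finite_above)
    refine elementwise I hmul hinv (R ℓ₁) (R ℓ) (U ℓ₁) (U ℓ) (hU ℓ₁ hℓ₁) (hU ℓ hℓ) (hco ℓ₁ hℓ₁) (hco ℓ hℓ) _ hS'
      φ (fun v hv => hφ v fun hvS => hv (Or.inl hvS)) s (fun v hv => ?_) (fun v hv => ?_)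
    · exact hmat ℓ₁ hℓ₁ v (fun hvS => hv (Or.inl hvS)) fun hvl => hv (Or.inr (Or.inr hvl))
    · exact hmat ℓ hℓ v (fun hvS => hv (Or.inl hvS)) fun hvl => hv (Or.inr (Or.inl hvl))
  have hall : ∀ v ∉ S, (∃ ℓ ∈ Λ, (ℓ : 𝓞 K) ∉ v.asIdeal) → Matches I (RingHom.id ℂ) (R ℓ₁) v (φ v) (s v) := by
    rintro v hv ⟨ℓ, hℓ, hvl⟩
    obtain ⟨h1, g, hg, h2⟩ := hmat ℓ hℓ v hv hvl
    refine ⟨fun τ hτ => ?_, ?_⟩
    · obtain ⟨x, _, hx⟩ := hel ℓ hℓ τ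
      rw [hx, h1 τ hτ, mul_one, mul_inv_cancel]
    · obtain ⟨x, hx1, hx⟩ := hel ℓ hℓ (φ v)
      refine ⟨x * g, ?_, ?_⟩
      · have := hmul _ _ _ _ hx1 hg
        rwa [mul_one] at this
      · rw [map_id_GL] at h2 ⊢
        rw [hx, h2]
        group
  have hker : IsOpen ((R ℓ₁).ker : Set (GK K)) := by
    refine Subgroup.isOpen_mono (H₁ := (U ℓ₁).toSubgroup) ?_ (U ℓ₁).isOpen'
    intro u hu
    exact hU ℓ₁ hℓ₁ u hu
  have hfin : Finite (GK K ⧸ (R ℓ₁).ker) := Subgroup.quotient_finite_of_isOpen _ hker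
  obtain ⟨M, hM, hMp⟩ := exists_pow (R ℓ₁) hfin
  refine ⟨M, hM, ?_, ?_, ?_⟩
  · intro v hv hvl
    obtain ⟨_, g, _, h2⟩ := hall v hv hvl
    rw [map_id_GL] at h2
    have h3 := hMp (φ v)
    rw [h2, conj_pow, mul_inv_eq_one] at h3
    exact mul_left_cancel (h3.trans (mul_one g).symm)
  · intro v hv hvl
    obtain ⟨_, g, hg, h2⟩ := hall v hv hvl
    rw [map_id_GL] at h2
    have h3 : s v = g⁻¹ * R ℓ₁ (φ v) * g := by
      rw [h2]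
      group
    rw [h3]
    have h4 := hmul _ _ _ _ (hmul _ _ _ _ (hinv _ _ hg) (hco ℓ₁ hℓ₁ (φ v))) hg
    rwa [inv_one, one_mul, mul_one] at h4
  · intro ℓ hℓ ι
    refine ⟨(Matrix.GeneralLinearGroup.map (ι.symm : ℂ →+* PadicAlgCl ℓ)).comp (R ℓ₁), ?_, ?_, ?_, ?_⟩
    · refine continuous_of_ker _ (Subgroup.isOpen_mono (H₁ := (U ℓ₁).toSubgroup) ?_ (U ℓ₁).isOpen')
      intro u hu
      rw [MonoidHom.mem_ker, MonoidHom.comp_apply, hU ℓ₁ hℓ₁ u hu, map_one]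
    · have e := QuotientGroup.quotientKerEquivRange (R ℓ₁)
      have h3 : Finite (R ℓ₁).range := Finite.of_equiv _ e.toEquiv
      have h4 : (Set.range (R ℓ₁)).Finite := Set.toFinite ((R ℓ₁).range : Set (GL (Fin N) ℂ))
      have h5 : Set.range ((Matrix.GeneralLinearGroup.map (ι.symm : ℂ →+* PadicAlgCl ℓ)).comp (R ℓ₁)) =
          (Matrix.GeneralLinearGroup.map (ι.symm : ℂ →+* PadicAlgCl ℓ)) '' Set.range (R ℓ₁) := by
        rw [← Set.range_comp]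
        rfl
      rw [h5]
      exact h4.image _
    · intro σ
      exact coset_map _ (hco ℓ₁ hℓ₁ σ)
    · intro v hv hvl
      obtain ⟨h1, g, hg, h2⟩ := hall v hv hvl
      refine ⟨fun τ hτ => by rw [MonoidHom.comp_apply, h1 τ hτ, map_one], g, hg, ?_⟩
      rw [map_id_GL] at h2
      rw [MonoidHom.comp_apply, map_symm_GL]
      exact h2

/-- matrices with `A ^ M = 1` have traces in the `M`-th cyclotomic field -/
theorem exists_cyc (M : ℕ) (hM : 0 < M) : ∃ E : IntermediateField ℚ ℂ, FiniteDimensional ℚ E ∧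
    ∀ {d : ℕ} (A : Matrix (Fin d) (Fin d) ℂ), A ^ M = 1 → A.trace ∈ E := by
  classical
  let R : Set ℂ := {z | z ^ M = 1}
  have hR : R.Finite := by
    refine (nthRootsFinset M (1 : ℂ)).finite_toSet.subset ?_
    intro z hz
    rw [Finset.mem_coe, mem_nthRootsFinset hM]
    exact hz
  haveI : Finite R := hR
  refine ⟨IntermediateField.adjoin ℚ R, IntermediateField.finiteDimensional_adjoin fun x hx =>
    IsIntegral.of_pow hM (by rw [show x ^ M = 1 from hx]; exact isIntegral_one), ?_⟩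
  intro d A hA
  obtain ⟨r, hr, hch⟩ := eig_of_pow A M hA
  have h1 : A.trace = ∑ i, r i := by
    have e : (∏ i, (X - C (r i)) : ℂ[X]) = ((Finset.univ.val.map r).map fun a => X - C a).prod := by
      rw [Multiset.map_map]
      rfl
    rw [Matrix.trace_eq_sum_roots_charpoly, hch, e, roots_multiset_prod_X_sub_C]
    rfl
  rw [h1]
  exact sum_mem fun i _ => IntermediateField.subset_adjoin ℚ R (hr i)

theorem pow_hom (I : GK K → Set (MvPolynomial (Fin N × Fin N) ℚ)) {d : ℕ}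
    (hone : (1 : GL (Fin N) ℂ) ∈ Coset I ℂ 1)
    (hmul : ∀ (σ τ : GK K) (g h : GL (Fin N) ℂ), g ∈ Coset I ℂ σ → h ∈ Coset I ℂ τ → g * h ∈ Coset I ℂ (σ * τ))
    {R : GL (Fin N) ℂ → GL (Fin d) ℂ}
    (hR : ∀ σ τ, ∀ g ∈ Coset I ℂ σ, ∀ h ∈ Coset I ℂ τ, R (g * h) = R g * R h) {s : GL (Fin N) ℂ} {M : ℕ}
    (hs : s ^ M = 1) {φ : GK K} (hsφ : s ∈ Coset I ℂ φ) : (R s : Matrix (Fin d) (Fin d) ℂ) ^ M = 1 := by
  have h1 : R 1 = 1 := by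
    have := hR 1 1 1 hone 1 hone
    rw [mul_one] at this
    exact mul_left_cancel ((mul_one (R 1)).trans this).symm
  have h2 : ∀ j : ℕ, s ^ j ∈ Coset I ℂ (φ ^ j) ∧ R (s ^ j) = R s ^ j := by
    intro j
    induction j with
    | zero => exact ⟨by rw [pow_zero, pow_zero]; exact hone, by rw [pow_zero, pow_zero, h1]⟩
    | succ j ih =>
      refine ⟨?_, ?_⟩
      · rw [pow_succ, pow_succ]
        exact hmul _ _ _ _ ih.1 hsφ
      · rw [pow_succ, hR _ _ _ ih.1 _ hsφ, ih.2, pow_succ]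
  rw [← Units.val_pow_eq_pow_val, ← (h2 M).2, hs, h1, Units.val_one]

end Pool.Agent.Y801.LG
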