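import Pool.Agent.Y801.LG.Irr2
import Pool.Agent.Y800.Lift

/-! Artin motives over number fields. -/

set_option autoImplicit false
set_option linter.all false

namespace Pool.Agent.Y801.LG

open Module MeasureTheory Topology Filter NumberField IsDedekindDomain Pool.Agent.Y800 Polynomial
open Pool.Agent.W401.Cheb Pool.Agent.W528.Ord Pool.Agent.Y802

variable {K : Type} [Field K] [NumberField K] {n : ℕ}

/-- the mean square of the traces is less than two -/
theorem mean_core (S : Set (HeightOneSpectrum (𝓞 K))) (hS : S.Finite)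
    (α : HeightOneSpectrum (𝓞 K) → Fin n → ℂ)
    (c : ℝ) (hc2 : c < 2) (hRS : ∃ᶠ N : ℕ in atTop,
      ∑ v ∈ (Pool.Agent.W352.ChAbs.finite_le (K := K) N).toFinset, (open scoped Classical in if v ∈ S then 0 else ‖∑ i, α v i‖ ^ 2) ≤
        c * ({v : HeightOneSpectrum (𝓞 K) | Ideal.absNorm v.asIdeal ≤ N}.ncard : ℝ))
    {k : Type} [Field k] [CharZero k] (ι : k ≃+* ℂ) (ρ : GK K →* GL (Fin n) k) (S' : Set (HeightOneSpectrum (𝓞 K))) (hS' : S'.Finite)
    (hSS : S ⊆ S') (hc : ∀ v ∉ S', CorrK ρ v fun i => ι.symm (α v i))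
    (U : OpenNormalSubgroup (GK K)) [Fintype (GK K ⧸ U.toSubgroup)] (hU : ∀ u ∈ U.toSubgroup, ρ u = 1) (m : ℕ) (hm2 : 2 ≤ m)
    (hm : (Nat.card (GK K ⧸ U.toSubgroup) : k)⁻¹ * ∑ q : GK K ⧸ U.toSubgroup,
      (ρ (q.out)⁻¹ : Matrix (Fin n) (Fin n) k).trace * (ρ q.out : Matrix (Fin n) (Fin n) k).trace = m) : False := by
  classical
  haveI : U.toSubgroup.Normal := U.isNormal'
  have hUo : IsOpen (U.toSubgroup : Set (GK K)) := U.isOpen'
  have hle : U.toSubgroup ≤ ρ.ker := fun u hu => hU u hu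
  have hfin : Finite (GK K ⧸ ρ.ker) := Subgroup.quotient_finite_of_isOpen _ (Subgroup.isOpen_mono hle hUo)
  obtain ⟨M, hM, hMp⟩ := exists_pow ρ hfin
  have hconj : ∀ σ : GK K, ι (ρ σ⁻¹ : Matrix (Fin n) (Fin n) k).trace = starRingEnd ℂ (ι (ρ σ : Matrix (Fin n) (Fin n) k).trace) := by
    intro σ
    rw [← trace_map_iso, ← trace_map_iso]
    refine trace_inv_conj _ _ ?_ M hM ?_
    · rw [← Matrix.map_mul, ← Units.val_mul, ← map_mul, mul_inv_cancel, map_one, Units.val_one,
        Matrix.map_one _ (map_zero _) (map_one _)]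
    · have h1 := congrArg (fun y : GL (Fin n) k => ((y : Matrix (Fin n) (Fin n) k).map (ι : k →+* ℂ))) (hMp σ)
      simp only [Units.val_pow_eq_pow_val, Units.val_one] at h1
      rw [Matrix.map_pow, Matrix.map_one _ (map_zero _) (map_one _)] at h1
      exact h1
  set f : GK K → ℝ := fun σ => ‖ι (ρ σ : Matrix (Fin n) (Fin n) k).trace‖ ^ 2 with hf
  have hsum : (∑ q : GK K ⧸ U.toSubgroup, f q.out) / (Nat.card (GK K ⧸ U.toSubgroup) : ℝ) = m := by
    have h1 := congrArg ι hm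
    rw [map_mul, map_inv₀, map_natCast, map_sum, map_natCast] at h1
    have h2 : ∀ q : GK K ⧸ U.toSubgroup, ι ((ρ (q.out)⁻¹ : Matrix (Fin n) (Fin n) k).trace * (ρ q.out : Matrix (Fin n) (Fin n) k).trace) = ((f q.out : ℝ) : ℂ) := by
      intro q
      rw [map_mul, hconj, mul_comm, Complex.mul_conj, Complex.normSq_eq_norm_sq]
    rw [Finset.sum_congr rfl fun q _ => h2 q, ← Complex.ofReal_sum] at h1
    have h3 : (((∑ q : GK K ⧸ U.toSubgroup, f q.out) / (Nat.card (GK K ⧸ U.toSubgroup) : ℝ) : ℝ) : ℂ) = ((m : ℝ) : ℂ) := by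
      rw [Complex.ofReal_div, Complex.ofReal_natCast, Complex.ofReal_natCast, ← h1]
      ring
    exact_mod_cast h3
  obtain ⟨c', hc'1, hc'2⟩ := exists_between hc2
  have hm2' : (2 : ℝ) ≤ m := by exact_mod_cast hm2
  have hev := avg_ge U f (fun σ => by positivity) (fun σ τ => by
      show ‖ι (ρ (τ * σ * τ⁻¹) : Matrix (Fin n) (Fin n) k).trace‖ ^ 2 = _
      rw [map_mul, map_mul, map_inv, Units.val_mul, Units.val_mul, Matrix.trace_mul_comm, ← mul_assoc,
        ← Units.val_mul, inv_mul_cancel, Units.val_one, one_mul])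
    (fun σ u hu => by
      show ‖ι (ρ (σ * u) : Matrix (Fin n) (Fin n) k).trace‖ ^ 2 = _
      rw [map_mul, hU u hu, mul_one])
    (fun v => if v ∈ S then 0 else ‖∑ i, α v i‖ ^ 2) (fun v => by positivity) S' hS'
    (fun v hv σ hσ => by
      have hvS : v ∉ S := fun h => hv (hSS h)
      show (if v ∈ S then 0 else ‖∑ i, α v i‖ ^ 2) = ‖ι (ρ σ : Matrix (Fin n) (Fin n) k).trace‖ ^ 2
      rw [if_neg hvS]
      obtain ⟨h, hh⟩ := (hc v hv).2 σ⁻¹ (by rwa [inv_inv])
      have e1 : ι (ρ σ⁻¹ : Matrix (Fin n) (Fin n) k).trace = ∑ i, α v i := by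
        rw [hh, Matrix.trace_mul_comm, ← mul_assoc, ← Units.val_mul, inv_mul_cancel, Units.val_one, one_mul,
          Matrix.trace_diagonal, map_sum]
        exact Finset.sum_congr rfl fun i _ => ι.apply_symm_apply _
      rw [← e1, hconj, RCLike.norm_conj]) c' (by rw [hsum]; linarith)
  by_cases hc0 : c < 0
  · obtain ⟨N, hN⟩ := hRS.exists
    have h1 : (0 : ℝ) ≤ ∑ v ∈ (Pool.Agent.W352.ChAbs.finite_le (K := K) N).toFinset, (if v ∈ S then 0 else ‖∑ i, α v i‖ ^ 2) :=
      Finset.sum_nonneg fun v _ => by positivity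
    have h3 : (1 : ℝ) ≤ ({v : HeightOneSpectrum (𝓞 K) | Ideal.absNorm v.asIdeal ≤ N}.ncard : ℝ) ∨
        ({v : HeightOneSpectrum (𝓞 K) | Ideal.absNorm v.asIdeal ≤ N}.ncard : ℝ) = 0 := by
      rcases Nat.eq_zero_or_pos ({v : HeightOneSpectrum (𝓞 K) | Ideal.absNorm v.asIdeal ≤ N}.ncard) with h | h
      · right; exact_mod_cast h
      · left; exact_mod_cast h
    -- use an eventually nonempty set
    obtain ⟨N, ⟨hN, hN2⟩, hN3⟩ := ((hRS.and_eventually hev).and_eventually (tendsto_pi.eventually_gt_atTop 0)).exists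
    have h4 : (0 : ℝ) ≤ ({v : HeightOneSpectrum (𝓞 K) | Ideal.absNorm v.asIdeal ≤ N}.ncard : ℝ) := Nat.cast_nonneg _
    have h6 := (avg_ge U f (fun σ => by positivity) (fun σ τ => by
      show ‖ι (ρ (τ * σ * τ⁻¹) : Matrix (Fin n) (Fin n) k).trace‖ ^ 2 = _
      rw [map_mul, map_mul, map_inv, Units.val_mul, Units.val_mul, Matrix.trace_mul_comm, ← mul_assoc,
        ← Units.val_mul, inv_mul_cancel, Units.val_one, one_mul])
    (fun σ u hu => by
      show ‖ι (ρ (σ * u) : Matrix (Fin n) (Fin n) k).trace‖ ^ 2 = _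
      rw [map_mul, hU u hu, mul_one])
    (fun v => if v ∈ S then 0 else ‖∑ i, α v i‖ ^ 2) (fun v => by positivity) S' hS'
    (fun v hv σ hσ => by
      have hvS : v ∉ S := fun h => hv (hSS h)
      show (if v ∈ S then 0 else ‖∑ i, α v i‖ ^ 2) = ‖ι (ρ σ : Matrix (Fin n) (Fin n) k).trace‖ ^ 2
      rw [if_neg hvS]
      obtain ⟨h, hh⟩ := (hc v hv).2 σ⁻¹ (by rwa [inv_inv])
      have e1 : ι (ρ σ⁻¹ : Matrix (Fin n) (Fin n) k).trace = ∑ i, α v i := by
        rw [hh, Matrix.trace_mul_comm, ← mul_assoc, ← Units.val_mul, inv_mul_cancel, Units.val_one, one_mul,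
          Matrix.trace_diagonal, map_sum]
        exact Finset.sum_congr rfl fun i _ => ι.apply_symm_apply _
      rw [← e1, hconj, RCLike.norm_conj]) 1 (by rw [hsum]; linarith))
    obtain ⟨N, ⟨hN, hN2⟩, hN3⟩ := ((hRS.and_eventually h6).and_eventually (tendsto_pi.eventually_gt_atTop 0)).exists
    have h4 : (0 : ℝ) ≤ ({v : HeightOneSpectrum (𝓞 K) | Ideal.absNorm v.asIdeal ≤ N}.ncard : ℝ) := Nat.cast_nonneg _
    have h5 : c * ({v : HeightOneSpectrum (𝓞 K) | Ideal.absNorm v.asIdeal ≤ N}.ncard : ℝ) ≤ 0 :=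
      mul_nonpos_of_nonpos_of_nonneg hc0.le h4
    have h7 : (0 : ℝ) < 1 * (Nat.primeCounting N : ℝ) := by rwa [one_mul]
    exact absurd (h7.trans hN2) (not_lt.2 (hN.trans h5))
  · push Not at hc0
    have hε : 0 < (c' - c) / 2 := by linarith
    obtain ⟨N, ⟨⟨hN, hN2⟩, hN3⟩, hN4⟩ := (((hRS.and_eventually hev).and_eventually (tendsto_pi.eventually_gt_atTop 0)).and_eventually
      (count_le (K := K) hε)).exists
    have h1 : c * ({v : HeightOneSpectrum (𝓞 K) | Ideal.absNorm v.asIdeal ≤ N}.ncard : ℝ) ≤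
        c * ((1 + (c' - c) / 2) * (Nat.primeCounting N : ℝ)) := mul_le_mul_of_nonneg_left hN4 hc0
    have h2 : c * (1 + (c' - c) / 2) ≤ c' := by nlinarith
    have h3 : c * ((1 + (c' - c) / 2) * (Nat.primeCounting N : ℝ)) ≤ c' * (Nat.primeCounting N : ℝ) := by
      rw [← mul_assoc]
      exact mul_le_mul_of_nonneg_right h2 hN3.le
    exact absurd hN2 (not_lt.2 (hN.trans (h1.trans h3)))


/-- realization over the algebraic numbers -/
theorem realize (R : GK K →* GL (Fin n) ℂ) (U : OpenNormalSubgroup (GK K)) (hU : ∀ u ∈ U.toSubgroup, R u = 1)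
    (ψ : QBar →+* ℂ) : ∃ r : GK K →* GL (Fin n) QBar, (∀ u ∈ U.toSubgroup, r u = 1) ∧
      ∀ g, (r g : Matrix (Fin n) (Fin n) QBar).charpoly.map ψ = (R g : Matrix (Fin n) (Fin n) ℂ).charpoly := by
  classical
  haveI : U.toSubgroup.Normal := U.isNormal'
  have hUo : IsOpen (U.toSubgroup : Set (GK K)) := U.isOpen'
  haveI : Finite (GK K ⧸ U.toSubgroup) := Subgroup.quotient_finite_of_isOpen _ hUo
  have hle : U.toSubgroup ≤ R.ker := fun u hu => hU u hu
  have hfin : Finite (GK K ⧸ R.ker) := Subgroup.quotient_finite_of_isOpen _ (Subgroup.isOpen_mono hle hUo)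
  obtain ⟨D, hD, hDp⟩ := exists_pow_mat R hfin
  obtain ⟨m, ⟨ε⟩⟩ := Finite.exists_equiv_fin (GK K ⧸ U.toSubgroup)
  let e : GK K → Fin m := fun g => ε (QuotientGroup.mk g)
  let mul : Fin m → Fin m → Fin m := fun i j => ε (ε.symm i * ε.symm j)
  let x : Fin m → Matrix (Fin n) (Fin n) ℂ := fun i => (R (ε.symm i).out : Matrix (Fin n) (Fin n) ℂ)
  have hRU : ∀ g h : GK K, (QuotientGroup.mk g : GK K ⧸ U.toSubgroup) = QuotientGroup.mk h → R g = R h := by
    intro g h hgh
    rw [QuotientGroup.eq] at hgh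
    have := hU _ hgh
    rw [map_mul, map_inv, inv_mul_eq_one] at this
    exact this
  have hxe : ∀ g, x (e g) = (R g : Matrix (Fin n) (Fin n) ℂ) := by
    intro g
    show (R (ε.symm (ε (QuotientGroup.mk g))).out : Matrix (Fin n) (Fin n) ℂ) = _
    rw [ε.symm_apply_apply, hRU _ g (QuotientGroup.out_eq' _)]
  choose s hs1 hs2 using fun i => eig_of_pow (x i) D (hDp _)
  choose z hz1 hz2 using fun i a => root_lift D hD (ψ.comp (algebraMap ZBar QBar)) (s i a) (hs1 i a)
  obtain ⟨y, hy⟩ := lift_real mul z (fun N hN => by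
    refine ⟨ℂ, inferInstance, ψ.comp (algebraMap ZBar QBar), x, ?_, ?_, ?_⟩
    · rw [map_intCast]
      exact_mod_cast hN
    · intro i j
      show (R (ε.symm i).out : Matrix (Fin n) (Fin n) ℂ) * (R (ε.symm j).out : Matrix (Fin n) (Fin n) ℂ) =
        (R (ε.symm (ε (ε.symm i * ε.symm j))).out : Matrix (Fin n) (Fin n) ℂ)
      rw [← Units.val_mul, ← map_mul, ε.symm_apply_apply]
      congr 1
      refine hRU _ _ ?_
      rw [QuotientGroup.out_eq']
      have : (QuotientGroup.mk ((ε.symm i).out * (ε.symm j).out) : GK K ⧸ U.toSubgroup) =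
        QuotientGroup.mk (ε.symm i).out * QuotientGroup.mk (ε.symm j).out := rfl
      rw [this, QuotientGroup.out_eq', QuotientGroup.out_eq']
    · intro i
      rw [hs2]
      refine Finset.prod_congr rfl fun a _ => ?_
      rw [hz2])
  obtain ⟨ρ, hρ⟩ := hom_of_real hD hz1 hy e (fun g h => by
    show ε (QuotientGroup.mk (g * h)) = ε (ε.symm (ε (QuotientGroup.mk g)) * ε.symm (ε (QuotientGroup.mk h)))
    rw [ε.symm_apply_apply, ε.symm_apply_apply]
    rfl)
  refine ⟨ρ, fun u hu => ?_, fun g => ?_⟩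
  · apply Units.ext
    have h1 : e u = e 1 := by
      show ε _ = ε _
      congr 1
      rw [QuotientGroup.eq]
      simpa using inv_mem hu
    rw [hρ, h1, ← hρ, map_one]
  · rw [hρ, hy.2, Polynomial.map_prod, ← hxe, hs2]
    refine Finset.prod_congr rfl fun a _ => ?_
    rw [Polynomial.map_sub, Polynomial.map_X, Polynomial.map_C, ← hz2]
    rfl

/-- descent to a number field -/
theorem descend (r : GK K →* GL (Fin n) QBar) (U : OpenNormalSubgroup (GK K)) (hU : ∀ u ∈ U.toSubgroup, r u = 1) :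
    ∃ E : IntermediateField ℚ QBar, FiniteDimensional ℚ E ∧ ∃ r' : GK K →* GL (Fin n) E,
      (∀ u ∈ U.toSubgroup, r' u = 1) ∧
      ∀ g, (r' g : Matrix (Fin n) (Fin n) E).map (algebraMap E QBar) = (r g : Matrix (Fin n) (Fin n) QBar) := by
  classical
  have hfin := finite_range r U hU
  let A : Set QBar := ⋃ x ∈ Set.range r, ⋃ i : Fin n, ⋃ j : Fin n, {(x : Matrix (Fin n) (Fin n) QBar) i j}
  have hA : A.Finite := hfin.biUnion fun x _ => Set.finite_iUnion fun i => Set.finite_iUnion fun j => Set.finite_singleton _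
  have hmem : ∀ g i j, (r g : Matrix (Fin n) (Fin n) QBar) i j ∈ IntermediateField.adjoin ℚ A := by
    intro g i j
    refine IntermediateField.subset_adjoin ℚ A ?_
    simp only [A, Set.mem_iUnion]
    exact ⟨r g, ⟨g, rfl⟩, i, j, rfl⟩
  haveI : Finite A := hA
  have hfd : FiniteDimensional ℚ (IntermediateField.adjoin ℚ A) :=
    IntermediateField.finiteDimensional_adjoin fun x _ => (isAlgebraic_gen ℚ x).isIntegral
  have hinj : ∀ B C : Matrix (Fin n) (Fin n) (IntermediateField.adjoin ℚ A),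
      B.map (algebraMap (IntermediateField.adjoin ℚ A) QBar) = C.map (algebraMap (IntermediateField.adjoin ℚ A) QBar) → B = C :=
    fun B C h => Matrix.map_injective (algebraMap (IntermediateField.adjoin ℚ A) QBar).injective h
  have h1 : ∀ g, (Matrix.of fun i j => (⟨(r g : Matrix (Fin n) (Fin n) QBar) i j, hmem g i j⟩ : IntermediateField.adjoin ℚ A)).map
      (algebraMap (IntermediateField.adjoin ℚ A) QBar) = (r g : Matrix (Fin n) (Fin n) QBar) := by
    intro g
    ext i j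
    rfl
  let f : GK K →* Matrix (Fin n) (Fin n) (IntermediateField.adjoin ℚ A) :=
    { toFun := fun g => Matrix.of fun i j => ⟨(r g : Matrix (Fin n) (Fin n) QBar) i j, hmem g i j⟩
      map_one' := by
        refine hinj _ _ ?_
        rw [h1, Matrix.map_one _ (map_zero _) (map_one _), map_one, Units.val_one]
      map_mul' := fun g h => by
        refine hinj _ _ ?_
        rw [h1, Matrix.map_mul, h1, h1, ← Units.val_mul, ← map_mul] }
  refine ⟨IntermediateField.adjoin ℚ A, hfd, f.toHomUnits, fun u hu => ?_, fun g => ?_⟩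
  · apply Units.ext
    refine hinj _ _ ((h1 u).trans ?_)
    rw [Units.val_one, Matrix.map_one _ (map_zero _) (map_one _), hU u hu, Units.val_one]
  · exact h1 g

/-- an irreducible representation with open kernel is a submodule of a permutation representation -/
theorem embedE {k : Type} [Field k] (r : GK K →* GL (Fin n) k) (hn : 0 < n) (h : Irr r)
    (U : OpenNormalSubgroup (GK K)) (hU : ∀ u ∈ U.toSubgroup, r u = 1) :
    ∃ L : IntermediateField K (AlgebraicClosure K), FiniteDimensional K L ∧ IsGalois K L ∧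
      ∃ Φ : (Fin n → k) →ₗ[k] ((L →ₐ[K] AlgebraicClosure K) → k), Function.Injective Φ ∧
        ∀ (g : GK K) (w : Fin n → k) (φ : L →ₐ[K] AlgebraicClosure K),
          Φ ((r g : Matrix (Fin n) (Fin n) k).mulVec w) φ =
            Φ w (((g⁻¹ : GK K) : AlgebraicClosure K →ₐ[K] AlgebraicClosure K).comp φ) := by
  classical
  have hUo : IsOpen (U.toSubgroup : Set (GK K)) := U.isOpen'
  have hUc : IsClosed (U.toSubgroup : Set (GK K)) := U.toSubgroup.isClosed_of_isOpen hUo
  haveI : U.toSubgroup.Normal := U.isNormal'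
  set L := IntermediateField.fixedField U.toSubgroup with hL
  have hfix : L.fixingSubgroup = U.toSubgroup :=
    InfiniteGalois.fixingSubgroup_fixedField (⟨U.toSubgroup, hUc⟩ : ClosedSubgroup (GK K))
  have hfd : FiniteDimensional K L := by
    have := (InfiniteGalois.isOpen_iff_finite L).1 (by
      show IsOpen (L.fixingSubgroup : Set (GK K))
      rw [hfix]; exact hUo)
    exact this
  have hgal : IsGalois K L := by
    have := (InfiniteGalois.normal_iff_isGalois L).1 (by rw [hfix]; infer_instance)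
    exact this
  refine ⟨L, hfd, hgal, ?_⟩
  have hlift : ∀ φ : L →ₐ[K] AlgebraicClosure K, ∃ σ : GK K, ∀ x : L, σ (x : AlgebraicClosure K) = φ x := by
    intro φ
    let ψ : AlgebraicClosure K →ₐ[K] AlgebraicClosure K := φ.liftNormal (AlgebraicClosure K)
    refine ⟨AlgEquiv.ofBijective ψ (Algebra.IsAlgebraic.algHom_bijective ψ), fun x => ?_⟩
    exact φ.liftNormal_commutes (AlgebraicClosure K) x
  choose s hs using hlift
  let lam : (Fin n → k) →ₗ[k] k := LinearMap.proj (⟨0, hn⟩ : Fin n)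
  have hwd : ∀ (σ τ : GK K), (∀ x : L, σ (x : AlgebraicClosure K) = τ (x : AlgebraicClosure K)) → r σ⁻¹ = r τ⁻¹ := by
    intro σ τ hστ
    have h1 : τ⁻¹ * σ ∈ U.toSubgroup := by
      rw [← hfix, IntermediateField.mem_fixingSubgroup_iff]
      intro x hx
      show τ⁻¹ (σ x) = x
      rw [hστ ⟨x, hx⟩]
      show τ.symm (τ x) = x
      rw [AlgEquiv.symm_apply_apply]
    have h2 := hU _ h1
    have h3 : r σ = r τ := by
      have : σ = τ * (τ⁻¹ * σ) := by group
      rw [this, map_mul, h2, mul_one]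
    rw [map_inv, map_inv, h3]
  let Φ : (Fin n → k) →ₗ[k] ((L →ₐ[K] AlgebraicClosure K) → k) :=
    LinearMap.pi fun φ => lam ∘ₗ Matrix.toLin' (r (s φ)⁻¹ : Matrix (Fin n) (Fin n) k)
  have hΦ : ∀ w φ, Φ w φ = lam ((r (s φ)⁻¹ : Matrix (Fin n) (Fin n) k).mulVec w) := fun w φ => rfl
  have hequiv : ∀ (g : GK K) (w : Fin n → k) (φ : L →ₐ[K] AlgebraicClosure K),
      Φ ((r g : Matrix (Fin n) (Fin n) k).mulVec w) φ =
        Φ w (((g⁻¹ : GK K) : AlgebraicClosure K →ₐ[K] AlgebraicClosure K).comp φ) := by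
    intro g w φ
    rw [hΦ, hΦ, Matrix.mulVec_mulVec, ← Units.val_mul, ← map_mul]
    have e : (s φ)⁻¹ * g = (g⁻¹ * s φ)⁻¹ := by group
    rw [e, hwd (g⁻¹ * s φ) (s (((g⁻¹ : GK K) : AlgebraicClosure K →ₐ[K] AlgebraicClosure K).comp φ)) ?_]
    intro x
    rw [hs]
    show g⁻¹ (s φ x) = _
    rw [hs]
    rfl
  refine ⟨Φ, ?_, hequiv⟩
  rw [← LinearMap.ker_eq_bot]
  have hst : Stable r (LinearMap.ker Φ) := by
    intro g w hw
    rw [LinearMap.mem_ker] at hw ⊢
    ext φ
    rw [hequiv, hw]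
    rfl
  rcases h _ hst with h1 | h1
  · exact h1
  · exfalso
    have h2 : Φ (Pi.single (⟨0, hn⟩ : Fin n) 1) = 0 := by
      rw [← LinearMap.mem_ker, h1]; trivial
    have h3 := congrFun h2 L.val
    rw [hΦ] at h3
    have h4 : r (s L.val)⁻¹ = 1 := by
      rw [hwd (s L.val) 1 (fun x => by rw [hs]; rfl), inv_one, map_one]
    rw [h4, Units.val_one, Matrix.one_mulVec] at h3
    have h5 : lam (Pi.single (⟨0, hn⟩ : Fin n) (1 : k)) = 1 := by
      show (Pi.single (⟨0, hn⟩ : Fin n) (1 : k) : Fin n → k) ⟨0, hn⟩ = 1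
      exact Pi.single_eq_same _ _
    rw [h5] at h3
    exact one_ne_zero h3

end Pool.Agent.Y801.LG
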