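import Pool.Agent.Y801.LG.Mot

/-! Artin motives attached to automorphic representations of Artin type. -/

set_option autoImplicit false
set_option linter.all false

namespace Pool.Agent.Y801.LG

open Module MeasureTheory Topology Filter NumberField IsDedekindDomain Pool.Agent.Y800 Polynomial
open Pool.Agent.W401.Cheb Pool.Agent.W528.Ord Pool.Agent.Y802

variable {K : Type} [Field K] [NumberField K] {n : ℕ}

theorem corr_charpolyK {k : Type*} [Field k] {ρ : GK K →* GL (Fin n) k} {v : HeightOneSpectrum (𝓞 K)} {a : Fin n → k}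
    (h : CorrK ρ v a) {σ : GK K} (hσ : IsFrob v σ⁻¹) :
    (ρ σ : Matrix (Fin n) (Fin n) k).charpoly = ∏ i, (X - C (a i)) := by
  obtain ⟨g, hg⟩ := h.2 σ hσ
  rw [hg, charpoly_conj, charpoly_diag]

/-- transport along a ring homomorphism -/
theorem corr_mapK {k k' : Type*} [Field k] [Field k'] (j : k →+* k') {ρ : GK K →* GL (Fin n) k}
    {v : HeightOneSpectrum (𝓞 K)} {a : Fin n → k} (h : CorrK ρ v a) :
    CorrK ((Matrix.GeneralLinearGroup.map j).comp ρ) v (fun i => j (a i)) := by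
  refine ⟨fun τ hτ => ?_, fun σ hσ => ?_⟩
  · rw [MonoidHom.comp_apply, h.1 τ hτ, map_one]
  · obtain ⟨g, hg⟩ := h.2 σ hσ
    refine ⟨Matrix.GeneralLinearGroup.map j g, ?_⟩
    rw [← map_inv, MonoidHom.comp_apply]
    show (ρ σ : Matrix (Fin n) (Fin n) k).map j = (g : Matrix (Fin n) (Fin n) k).map j *
      Matrix.diagonal (fun i => j (a i)) * ((g⁻¹ : GL (Fin n) k) : Matrix (Fin n) (Fin n) k).map j
    rw [hg, Matrix.map_mul, Matrix.map_mul]
    congr 2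
    exact Matrix.diagonal_map (map_zero j)

theorem frob_conjK {v : HeightOneSpectrum (𝓞 K)} {σ : GK K} (hσ : IsFrob v σ) (τ : GK K) :
    IsFrob v (τ * σ * τ⁻¹) := by
  obtain ⟨Q, hQ, hQv, hQσ⟩ := hσ
  exact ⟨_, Pool.Agent.W401.Frob.tr_max τ Q hQ, (Pool.Agent.W401.Frob.tr_comap τ Q).trans hQv,
    Pool.Agent.W401.Frob.frob_conj v σ τ Q hQσ⟩

theorem charpoly_eqK {k : Type*} [Field k] (R₁ R₂ : GK K →* GL (Fin n) k) (U₁ U₂ : OpenNormalSubgroup (GK K))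
    (hU₁ : ∀ u ∈ U₁.toSubgroup, R₁ u = 1) (hU₂ : ∀ u ∈ U₂.toSubgroup, R₂ u = 1)
    (a : HeightOneSpectrum (𝓞 K) → Fin n → k) (S : Set (HeightOneSpectrum (𝓞 K))) (hS : S.Finite)
    (h₁ : ∀ v ∉ S, CorrK R₁ v (a v)) (h₂ : ∀ v ∉ S, CorrK R₂ v (a v)) (g : GK K) :
    (R₁ g : Matrix (Fin n) (Fin n) k).charpoly = (R₂ g : Matrix (Fin n) (Fin n) k).charpoly := by
  obtain ⟨v, hv, σ, hσ, τ, hτ⟩ := exists_frobK (U₁ ⊓ U₂) S hS g⁻¹
  have e1 : R₁ g = R₁ (τ * σ * τ⁻¹)⁻¹ := by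
    have := hU₁ _ hτ.1
    rw [inv_inv, map_mul, mul_eq_one_iff_inv_eq, ← map_inv] at this
    exact this.symm
  have e2 : R₂ g = R₂ (τ * σ * τ⁻¹)⁻¹ := by
    have := hU₂ _ hτ.2
    rw [inv_inv, map_mul, mul_eq_one_iff_inv_eq, ← map_inv] at this
    exact this.symm
  have hf : IsFrob v ((τ * σ * τ⁻¹)⁻¹)⁻¹ := by
    rw [inv_inv]
    exact frob_conjK hσ τ
  rw [e1, e2, corr_charpolyK (h₁ v hv) hf, corr_charpolyK (h₂ v hv) hf]

theorem mot (hn : 0 < n) (S : Set (HeightOneSpectrum (𝓞 K))) (hS : S.Finite)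
    (α : HeightOneSpectrum (𝓞 K) → Fin n → ℂ) (hA : Hyp n (fun v => Matrix.diagonal (α v)) S)
    (c : ℝ) (hc2 : c < 2) (hRS : ∃ᶠ N : ℕ in atTop,
      ∑ v ∈ (Pool.Agent.W352.ChAbs.finite_le (K := K) N).toFinset, (open scoped Classical in if v ∈ S then 0 else ‖∑ i, α v i‖ ^ 2) ≤
        c * ({v : HeightOneSpectrum (𝓞 K) | Ideal.absNorm v.asIdeal ≤ N}.ncard : ℝ))
    (Λ : Set ℕ) (hΛ : Λ.Nonempty) (hp : ∀ ℓ ∈ Λ, ℓ.Prime)
    (h : ∀ (ℓ : ℕ) [Fact ℓ.Prime], ℓ ∈ Λ → ∃ (ι : PadicAlgCl ℓ ≃+* ℂ) (ρ : GK K →* GL (Fin n) (PadicAlgCl ℓ)),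
      Continuous ρ ∧ ∀ v ∉ S, (ℓ : 𝓞 K) ∉ v.asIdeal → CorrK ρ v fun i => ι.symm (α v i)) :
    ∃ (E : IntermediateField ℚ QBar) (e : E →+* ℂ) (r : GK K →* GL (Fin n) E)
      (L : IntermediateField K (AlgebraicClosure K)), FiniteDimensional ℚ E ∧ FiniteDimensional K L ∧ IsGalois K L ∧
      (∃ Φ : (Fin n → E) →ₗ[E] ((L →ₐ[K] AlgebraicClosure K) → E), Function.Injective Φ ∧
        ∀ (g : GK K) (w : Fin n → E) (φ : L →ₐ[K] AlgebraicClosure K),
          Φ ((r g : Matrix (Fin n) (Fin n) E).mulVec w) φ =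
            Φ w (((g⁻¹ : GK K) : AlgebraicClosure K →ₐ[K] AlgebraicClosure K).comp φ)) ∧
      (∀ (k : Type) [Field k] (j : E →+* k), Irr ((Matrix.GeneralLinearGroup.map j).comp r)) ∧
      ∀ (k : Type) [Field k] (j : E →+* k) (ι : k ≃+* ℂ), (∀ x, ι (j x) = e x) →
        ∀ v ∉ S, (∃ ℓ ∈ Λ, (ℓ : 𝓞 K) ∉ v.asIdeal) →
          CorrK ((Matrix.GeneralLinearGroup.map j).comp r) v fun i => ι.symm (α v i) := by
  classical
  have hC : ∀ ℓ ∈ Λ, ∃ (R : GK K →* GL (Fin n) ℂ) (U : OpenNormalSubgroup (GK K)), (∀ u ∈ U.toSubgroup, R u = 1) ∧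
      ∀ v ∉ S, (ℓ : 𝓞 K) ∉ v.asIdeal → CorrK R v (α v) := by
    intro ℓ hℓ
    haveI : Fact ℓ.Prime := ⟨hp ℓ hℓ⟩
    obtain ⟨ι, ρ, hρ, hco⟩ := h ℓ hℓ
    obtain ⟨U, hU⟩ := corr_open hn S hS α hA ι ρ hρ hco
    refine ⟨(Matrix.GeneralLinearGroup.map (ι : PadicAlgCl ℓ →+* ℂ)).comp ρ, U, fun u hu => ?_, fun v hv hvl => ?_⟩
    · rw [MonoidHom.comp_apply, hU u hu, map_one]
    · have h1 := corr_mapK (ι : PadicAlgCl ℓ →+* ℂ) (hco v hv hvl)
      have e1 : (fun i => (ι : PadicAlgCl ℓ →+* ℂ) (ι.symm (α v i))) = α v := by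
        funext i
        exact ι.apply_symm_apply _
      rwa [e1] at h1
  haveI : Nonempty (OpenNormalSubgroup (GK K)) :=
    ⟨(ProfiniteGrp.exist_openNormalSubgroup_sub_open_nhds_of_one (G := GK K) isOpen_univ (Set.mem_univ 1)).choose⟩
  choose! R U hU hco using hC
  obtain ⟨ℓ₁, hℓ₁⟩ := hΛ
  have hcp : ∀ ℓ ∈ Λ, ∀ g, (R ℓ₁ g : Matrix (Fin n) (Fin n) ℂ).charpoly = (R ℓ g : Matrix (Fin n) (Fin n) ℂ).charpoly := by
    intro ℓ hℓ
    haveI : Fact ℓ.Prime := ⟨hp ℓ hℓ⟩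
    haveI : Fact ℓ₁.Prime := ⟨hp ℓ₁ hℓ₁⟩
    have hS' : (S ∪ ({v : HeightOneSpectrum (𝓞 K) | (ℓ : 𝓞 K) ∈ v.asIdeal} ∪
      {v : HeightOneSpectrum (𝓞 K) | (ℓ₁ : 𝓞 K) ∈ v.asIdeal})).Finite := hS.union (finite_above.union finite_above)
    refine charpoly_eqK (R ℓ₁) (R ℓ) (U ℓ₁) (U ℓ) (hU ℓ₁ hℓ₁) (hU ℓ hℓ) α _ hS' (fun v hv => ?_) (fun v hv => ?_)
    · exact hco ℓ₁ hℓ₁ v (fun hvS => hv (Or.inl hvS)) fun hvl => hv (Or.inr (Or.inr hvl))
    · exact hco ℓ hℓ v (fun hvS => hv (Or.inl hvS)) fun hvl => hv (Or.inr (Or.inl hvl))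
  haveI : Algebra.IsAlgebraic ℚ QBar := ⟨fun x => isAlgebraic_gen ℚ x⟩
  let ψ : QBar →+* ℂ := (IsAlgClosed.lift (R := ℚ) (S := QBar) (M := ℂ) : QBar →ₐ[ℚ] ℂ)
  obtain ⟨r₀, hr₀U, hr₀⟩ := realize (R ℓ₁) (U ℓ₁) (hU ℓ₁ hℓ₁) ψ
  obtain ⟨E, hE, r, hrU, hr⟩ := descend r₀ (U ℓ₁) hr₀U
  set e : E →+* ℂ := ψ.comp (algebraMap E QBar) with he
  have hrch : ∀ g, (r g : Matrix (Fin n) (Fin n) E).charpoly.map e = (R ℓ₁ g : Matrix (Fin n) (Fin n) ℂ).charpoly := by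
    intro g
    rw [← hr₀ g, he, ← Polynomial.map_map, ← Matrix.charpoly_map, hr]
  -- correspondence
  have hcorr : ∀ (k : Type) [Field k] (j : E →+* k) (ι : k ≃+* ℂ), (∀ x, ι (j x) = e x) →
        ∀ v ∉ S, (∃ ℓ ∈ Λ, (ℓ : 𝓞 K) ∉ v.asIdeal) →
          CorrK ((Matrix.GeneralLinearGroup.map j).comp r) v fun i => ι.symm (α v i) := by
    rintro k _ j ι hj v hv ⟨ℓ, hℓ, hvl⟩
    haveI : CharZero k := charZero_of_injective_ringHom j.injective
    haveI : IsAlgClosed k := IsAlgClosed.of_ringEquiv ℂ k ι.symm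
    have hjU : ∀ u ∈ (U ℓ₁).toSubgroup, (Matrix.GeneralLinearGroup.map j).comp r u = 1 := fun u hu => by
      rw [MonoidHom.comp_apply, hrU u hu, map_one]
    have hfin : Finite (GK K ⧸ ((Matrix.GeneralLinearGroup.map j).comp r).ker) :=
      Subgroup.quotient_finite_of_isOpen _ (Subgroup.isOpen_mono (fun u hu => hjU u hu) (U ℓ₁).isOpen')
    obtain ⟨D, hD, hDp⟩ := exists_pow_mat _ hfin
    have hch : ∀ g, ((Matrix.GeneralLinearGroup.map j).comp r g : Matrix (Fin n) (Fin n) k).charpoly.map (ι : k →+* ℂ) =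
        (R ℓ g : Matrix (Fin n) (Fin n) ℂ).charpoly := by
      intro g
      show ((r g : Matrix (Fin n) (Fin n) E).map j).charpoly.map (ι : k →+* ℂ) = _
      rw [Matrix.charpoly_map, Polynomial.map_map, ← hcp ℓ hℓ, ← hrch]
      congr 1
      ext x
      exact hj x
    have hinj : Function.Injective (Polynomial.map (ι : k →+* ℂ)) := Polynomial.map_injective _ ι.injective
    refine ⟨fun τ hτ => ?_, fun σ hσ => ?_⟩
    · apply Units.ext
      rw [Units.val_one]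
      refine eq_one_of_charpoly _ D hD (hDp τ) (hinj ?_)
      rw [hch, (hco ℓ hℓ v hv hvl).1 τ hτ, Units.val_one, Matrix.charpoly_one, Matrix.charpoly_one]
      simp
    · refine conj_diag _ D hD (hDp σ) _ (hinj ?_)
      rw [hch, corr_charpolyK (hco ℓ hℓ v hv hvl) hσ, Polynomial.map_prod]
      refine Finset.prod_congr rfl fun i _ => ?_
      rw [Polynomial.map_sub, Polynomial.map_X, Polynomial.map_C]
      congr 2
      exact (ι.apply_symm_apply _).symm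
  -- absolute irreducibility
  have hirr : ∀ (k : Type) [Field k] (j : E →+* k), Irr ((Matrix.GeneralLinearGroup.map j).comp r) := by
    intro k _ j W hW
    by_contra hno
    rw [not_or] at hno
    haveI : CharZero k := charZero_of_injective_ringHom j.injective
    haveI : (U ℓ₁).toSubgroup.Normal := (U ℓ₁).isNormal'
    have hUo : IsOpen ((U ℓ₁).toSubgroup : Set (GK K)) := (U ℓ₁).isOpen'
    haveI : Finite (GK K ⧸ (U ℓ₁).toSubgroup) := Subgroup.quotient_finite_of_isOpen _ hUo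
    haveI := Fintype.ofFinite (GK K ⧸ (U ℓ₁).toSubgroup)
    have hjU : (U ℓ₁).toSubgroup ≤ ((Matrix.GeneralLinearGroup.map j).comp r).ker := fun u hu => by
      rw [MonoidHom.mem_ker, MonoidHom.comp_apply, hrU u hu, map_one]
    have hfin : Finite (GK K ⧸ ((Matrix.GeneralLinearGroup.map j).comp r).ker) :=
      Subgroup.quotient_finite_of_isOpen _ (Subgroup.isOpen_mono hjU hUo)
    obtain ⟨W', hW', hcompl⟩ := semisimple_of_finite _ hfin W hW
    let rr : (GK K ⧸ (U ℓ₁).toSubgroup) →* GL (Fin n) k := QuotientGroup.lift _ _ hjU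
    have hrW : ∀ {W : Submodule k (Fin n → k)}, Stable ((Matrix.GeneralLinearGroup.map j).comp r) W → Stable rr W := by
      intro W hW q w hw
      obtain ⟨σ, rfl⟩ := QuotientGroup.mk_surjective q
      exact hW σ w hw
    obtain ⟨m, hm2, hm⟩ := mean_ge_two rr W W' (hrW hW) (hrW hW') hcompl hno.1 hno.2
    have e1 : ∀ q, rr q = (Matrix.GeneralLinearGroup.map j).comp r q.out := by
      intro q
      conv_lhs => rw [← QuotientGroup.out_eq' q]
      rfl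
    have htr : ∀ {F : Type} [Field F] (i : E →+* F) (g : GK K), ((Matrix.GeneralLinearGroup.map i).comp r g : Matrix (Fin n) (Fin n) F).trace =
        i (r g : Matrix (Fin n) (Fin n) E).trace := fun i g => map_trace_aux (f := i) _
    have hE1 : (Nat.card (GK K ⧸ (U ℓ₁).toSubgroup) : E)⁻¹ * ∑ q : GK K ⧸ (U ℓ₁).toSubgroup,
      (r (q.out)⁻¹ : Matrix (Fin n) (Fin n) E).trace * (r q.out : Matrix (Fin n) (Fin n) E).trace = m := by
      apply j.injective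
      rw [map_mul, map_inv₀, map_natCast, map_natCast, map_sum, ← hm]
      congr 1
      refine Finset.sum_congr rfl fun q _ => ?_
      have e2 : rr q⁻¹ = (Matrix.GeneralLinearGroup.map j).comp r (q.out)⁻¹ := by
        rw [map_inv, e1, map_inv]
      rw [map_mul, ← htr, ← htr, e2, e1]
    have hE2 : (Nat.card (GK K ⧸ (U ℓ₁).toSubgroup) : ℂ)⁻¹ * ∑ q : GK K ⧸ (U ℓ₁).toSubgroup,
      ((Matrix.GeneralLinearGroup.map e).comp r (q.out)⁻¹ : Matrix (Fin n) (Fin n) ℂ).trace *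
        ((Matrix.GeneralLinearGroup.map e).comp r q.out : Matrix (Fin n) (Fin n) ℂ).trace = m := by
      have h1 := congrArg e hE1
      rw [map_mul, map_inv₀, map_natCast, map_natCast, map_sum] at h1
      rw [← h1]
      congr 1
      refine Finset.sum_congr rfl fun q _ => ?_
      rw [map_mul, htr, htr]
    haveI : Fact ℓ₁.Prime := ⟨hp ℓ₁ hℓ₁⟩
    refine mean_core S hS α c hc2 hRS (RingEquiv.refl ℂ) ((Matrix.GeneralLinearGroup.map e).comp r)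
      (S ∪ {v : HeightOneSpectrum (𝓞 K) | (ℓ₁ : 𝓞 K) ∈ v.asIdeal}) (hS.union finite_above) Set.subset_union_left
      (fun v hv => hcorr ℂ e (RingEquiv.refl ℂ) (fun x => rfl) v (fun h => hv (Or.inl h)) ⟨ℓ₁, hℓ₁, fun h => hv (Or.inr h)⟩)
      (U ℓ₁) (fun u hu => by rw [MonoidHom.comp_apply, hrU u hu, map_one]) m hm2 hE2
  have hrirr : Irr r := by
    have := hirr E (RingHom.id E)
    have e1 : (Matrix.GeneralLinearGroup.map (RingHom.id E)).comp r = r := by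
      refine MonoidHom.ext fun g => ?_
      apply Units.ext
      show (r g : Matrix (Fin n) (Fin n) E).map (RingHom.id E) = _
      ext a b; rfl
    rwa [e1] at this
  obtain ⟨L, hL1, hL2, Φ, hΦ1, hΦ2⟩ := embedE r hn hrirr (U ℓ₁) hrU
  exact ⟨E, e, r, L, hE, hL1, hL2, ⟨Φ, hΦ1, hΦ2⟩, hirr, hcorr⟩

end Pool.Agent.Y801.LG
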