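import Pool.Agent.Y801.LG.Main2

/-! Mean squares of traces over the primes and irreducibility. -/

set_option autoImplicit false
set_option linter.all false

namespace Pool.Agent.Y801.LG

open Module MeasureTheory Topology Filter NumberField IsDedekindDomain Pool.Agent.Y800 Polynomial
open Pool.Agent.W401.Cheb Pool.Agent.W528.Ord Pool.Agent.Y802

section avg

variable {K : Type} [Field K] [NumberField K]

open scoped Classical in
theorem avg_ge (U : OpenNormalSubgroup (GK K)) [Fintype (GK K ⧸ U.toSubgroup)] (f : GK K → ℝ) (hf0 : ∀ σ, 0 ≤ f σ)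
    (hfc : ∀ σ τ, f (τ * σ * τ⁻¹) = f σ) (hfU : ∀ σ, ∀ u ∈ U.toSubgroup, f (σ * u) = f σ)
    (G : HeightOneSpectrum (𝓞 K) → ℝ) (hG0 : ∀ v, 0 ≤ G v) (S : Set (HeightOneSpectrum (𝓞 K))) (hS : S.Finite)
    (hG : ∀ v ∉ S, ∀ σ, IsFrob v σ → G v = f σ) (c : ℝ)
    (hc : c < (∑ q : GK K ⧸ U.toSubgroup, f q.out) / (Nat.card (GK K ⧸ U.toSubgroup) : ℝ)) :
    ∀ᶠ N in atTop, c * (Nat.primeCounting N : ℝ) <
      ∑ v ∈ (Pool.Agent.W352.ChAbs.finite_le (K := K) N).toFinset, G v := by
  have hUo : IsOpen (U.toSubgroup : Set (GK K)) := U.isOpen'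
  haveI : U.toSubgroup.Normal := U.isNormal'
  set T : Finset ℝ := Finset.univ.image fun q : GK K ⧸ U.toSubgroup => f q.out with hT
  set C : ℝ → Set (GK K) := fun t => {σ | f σ = t} with hC
  have hout : ∀ σ : GK K, f ((QuotientGroup.mk σ : GK K ⧸ U.toSubgroup).out) = f σ := by
    intro σ
    have h1 : σ⁻¹ * (QuotientGroup.mk σ : GK K ⧸ U.toSubgroup).out ∈ U.toSubgroup := by
      rw [← QuotientGroup.eq, QuotientGroup.out_eq']
    have := hfU σ _ h1
    rwa [mul_inv_cancel_left] at this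
  have key : ∀ t, Tendsto (dens fun v : HeightOneSpectrum (𝓞 K) => ∃ σ ∈ C t, IsFrob v σ) atTop
      (𝓝 (((Finset.univ.filter fun q : GK K ⧸ U.toSubgroup => f q.out = t).card : ℝ) /
        (Nat.card (GK K ⧸ U.toSubgroup) : ℝ))) := by
    intro t
    have h1 := chebK K U.toSubgroup hUo (C t) (fun σ hσ τ => by
      show f (τ * σ * τ⁻¹) = t
      rw [hfc]; exact hσ) (fun σ hσ u hu => by
      show f (σ * u) = t
      rw [hfU σ u hu]; exact hσ)
    have e : ((QuotientGroup.mk : GK K → GK K ⧸ U.toSubgroup) '' C t).ncard =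
        (Finset.univ.filter fun q : GK K ⧸ U.toSubgroup => f q.out = t).card := by
      rw [← Set.ncard_coe_finset]
      congr 1
      ext q
      rw [Finset.coe_filter]
      constructor
      · rintro ⟨σ, hσ, rfl⟩
        exact ⟨Finset.mem_univ _, (hout σ).trans hσ⟩
      · rintro ⟨_, hq⟩
        exact ⟨q.out, hq, QuotientGroup.out_eq' q⟩
    rwa [e] at h1
  have hpi : Tendsto (fun N : ℕ => (Nat.primeCounting N : ℝ)) atTop atTop := tendsto_pi
  have hlim : Tendsto (fun N : ℕ => ∑ t ∈ T, t * (dens (fun v : HeightOneSpectrum (𝓞 K) => ∃ σ ∈ C t, IsFrob v σ) N -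
      (hS.toFinset.card : ℝ) / (Nat.primeCounting N : ℝ))) atTop
      (𝓝 (∑ t ∈ T, t * (((Finset.univ.filter fun q : GK K ⧸ U.toSubgroup => f q.out = t).card : ℝ) /
        (Nat.card (GK K ⧸ U.toSubgroup) : ℝ) - 0))) := by
    refine tendsto_finset_sum _ fun t _ => ?_
    exact ((key t).sub (tendsto_const_nhds.div_atTop hpi)).const_mul t
  have hsum : ∑ t ∈ T, t * (((Finset.univ.filter fun q : GK K ⧸ U.toSubgroup => f q.out = t).card : ℝ) /
        (Nat.card (GK K ⧸ U.toSubgroup) : ℝ) - 0) =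
      (∑ q : GK K ⧸ U.toSubgroup, f q.out) / (Nat.card (GK K ⧸ U.toSubgroup) : ℝ) := by
    rw [← Finset.sum_fiberwise_of_maps_to (s := Finset.univ) (t := T) (g := fun q : GK K ⧸ U.toSubgroup => f q.out)
      (fun q _ => Finset.mem_image_of_mem _ (Finset.mem_univ q)), Finset.sum_div]
    refine Finset.sum_congr rfl fun t _ => ?_
    rw [sub_zero, mul_div_assoc']
    congr 1
    rw [Finset.sum_congr rfl (g := fun _ => t) (fun q hq => (Finset.mem_filter.1 hq).2), Finset.sum_const, nsmul_eq_mul, mul_comm]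
  rw [hsum] at hlim
  filter_upwards [hlim.eventually (lt_mem_nhds hc), hpi.eventually_gt_atTop 0] with N hN hpos
  have h1 : ∀ t ∈ T, t * ((dens (fun v : HeightOneSpectrum (𝓞 K) => ∃ σ ∈ C t, IsFrob v σ) N -
      (hS.toFinset.card : ℝ) / (Nat.primeCounting N : ℝ)) * (Nat.primeCounting N : ℝ)) ≤
      ∑ v ∈ (Pool.Agent.W352.ChAbs.finite_le (K := K) N).toFinset, if v ∉ S ∧ G v = t then G v else 0 := by
    intro t ht
    have ht0 : 0 ≤ t := by
      obtain ⟨q, _, rfl⟩ := Finset.mem_image.1 ht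
      exact hf0 _
    rw [← Finset.sum_filter, Finset.sum_congr rfl (g := fun _ => t) (fun q hq => (Finset.mem_filter.1 hq).2.2),
      Finset.sum_const, nsmul_eq_mul, mul_comm]
    refine mul_le_mul_of_nonneg_right ?_ ht0
    rw [sub_mul, div_mul_cancel₀ _ hpos.ne']
    unfold dens
    rw [div_mul_cancel₀ _ hpos.ne', sub_le_iff_le_add]
    have h2 : {v : HeightOneSpectrum (𝓞 K) | Ideal.absNorm v.asIdeal ≤ N ∧ ∃ σ ∈ C t, IsFrob v σ} ⊆
        (((Pool.Agent.W352.ChAbs.finite_le (K := K) N).toFinset.filter fun v => v ∉ S ∧ G v = t) ∪ hS.toFinset :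
          Finset (HeightOneSpectrum (𝓞 K))) := by
      rintro v ⟨hv, σ, hσ, hf⟩
      rw [Finset.coe_union, Set.mem_union]
      by_cases hvS : v ∈ S
      · right
        simpa using hvS
      · left
        rw [Finset.coe_filter]
        exact ⟨(Set.Finite.mem_toFinset _).2 hv, hvS, (hG v hvS σ hf).trans hσ⟩
    have h3 := Set.ncard_le_ncard h2 (Finset.finite_toSet _)
    rw [Set.ncard_coe_finset] at h3
    have h4 := h3.trans (Finset.card_union_le _ _)
    exact_mod_cast h4
  have h2 : c * (Nat.primeCounting N : ℝ) < ∑ t ∈ T, t * ((dens (fun v : HeightOneSpectrum (𝓞 K) => ∃ σ ∈ C t, IsFrob v σ) N -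
      (hS.toFinset.card : ℝ) / (Nat.primeCounting N : ℝ)) * (Nat.primeCounting N : ℝ)) := by
    have := mul_lt_mul_of_pos_right hN hpos
    rw [Finset.sum_mul] at this
    simpa only [mul_assoc] using this
  refine h2.trans_le ((Finset.sum_le_sum h1).trans ?_)
  rw [Finset.sum_comm]
  refine Finset.sum_le_sum fun v _ => ?_
  by_cases hvS : v ∈ S
  · simp only [hvS, not_true_eq_false, false_and, if_false, Finset.sum_const_zero]
    exact hG0 v
  · simp only [hvS, not_false_eq_true, true_and]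
    rw [Finset.sum_ite_eq]
    split_ifs
    · exact le_rfl
    · exact hG0 v

end avg

section fin

variable {k : Type} [Field k] [CharZero k] {n : ℕ}

/-- a representation of a finite group with a nontrivial decomposition: the mean of `χ(g⁻¹) χ(g)` is an
integer greater than one -/
theorem mean_ge_two {Q : Type} [Group Q] [Fintype Q] (r : Q →* GL (Fin n) k)
    (W W' : Submodule k (Fin n → k)) (hW : Stable r W) (hW' : Stable r W') (hc : IsCompl W W')
    (h0 : W ≠ ⊥) (h1 : W ≠ ⊤) :
    ∃ m : ℕ, 2 ≤ m ∧ (Nat.card Q : k)⁻¹ * ∑ q : Q, (r q⁻¹ : Matrix (Fin n) (Fin n) k).trace *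
      (r q : Matrix (Fin n) (Fin n) k).trace = m := by
  classical
  let ρ : Representation k Q (Fin n → k) :=
    { toFun := fun q => Matrix.toLin' (r q : Matrix (Fin n) (Fin n) k)
      map_one' := by rw [map_one, Units.val_one, Matrix.toLin'_one]; rfl
      map_mul' := fun a b => by rw [map_mul, Units.val_mul, Matrix.toLin'_mul]; rfl }
  have hρ : ∀ q w, ρ q w = (r q : Matrix (Fin n) (Fin n) k).mulVec w := fun q w => Matrix.toLin'_apply _ _
  have hchar : ∀ q, ρ.character q = (r q : Matrix (Fin n) (Fin n) k).trace := fun q => Matrix.trace_toLin'_eq _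
  haveI : Invertible (Nat.card Q : k) := invertibleOfNonzero (by
    have : 0 < Nat.card Q := Nat.card_pos
    exact_mod_cast this.ne')
  have key := Representation.card_inv_mul_sum_char_eq_finrank (Representation.linHom ρ ρ)
  simp only [Representation.char_linHom, hchar] at key
  refine ⟨_, ?_, key⟩
  -- the projection
  let π : (Fin n → k) →ₗ[k] (Fin n → k) := W.subtype ∘ₗ W.projectionOnto W' hc
  have hπ1 : ∀ w ∈ W, π w = w := by
    intro w hw
    show ((W.projectionOnto W' hc w : W) : Fin n → k) = w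
    rw [show W.projectionOnto W' hc w = ⟨w, hw⟩ from Submodule.projectionOnto_apply_left hc ⟨w, hw⟩]
  have hπ2 : ∀ w ∈ W', π w = 0 := by
    intro w hw
    show ((W.projectionOnto W' hc w : W) : Fin n → k) = 0
    rw [show W.projectionOnto W' hc w = 0 from Submodule.projectionOnto_apply_right hc ⟨w, hw⟩]
    rfl
  have hπ : ∀ q, π ∘ₗ ρ q = ρ q ∘ₗ π := by
    intro q
    refine LinearMap.ext fun x => ?_
    obtain ⟨a, ha, b, hb, rfl⟩ : ∃ a ∈ W, ∃ b ∈ W', a + b = x := by
      have : x ∈ W ⊔ W' := by rw [hc.sup_eq_top]; trivial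
      exact Submodule.mem_sup.1 this
    have h2 : ρ q a ∈ W := by rw [hρ]; exact hW q a ha
    have h3 : ρ q b ∈ W' := by rw [hρ]; exact hW' q b hb
    have e1 : π (ρ q (a + b)) = ρ q a := by rw [map_add (ρ q), map_add π, hπ1 _ h2, hπ2 _ h3, add_zero]
    have e2 : ρ q (π (a + b)) = ρ q a := by rw [map_add π, hπ1 a ha, hπ2 b hb, add_zero]
    exact e1.trans e2.symm
  have hid : (LinearMap.id : (Fin n → k) →ₗ[k] (Fin n → k)) ∈ (Representation.linHom ρ ρ).invariants := by
    intro q
    rw [Representation.linHom_apply]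
    show ρ q ∘ₗ LinearMap.id ∘ₗ ρ q⁻¹ = LinearMap.id
    rw [LinearMap.id_comp]
    show ρ q * ρ q⁻¹ = 1
    rw [← map_mul, mul_inv_cancel, map_one]
  have hmem : π ∈ (Representation.linHom ρ ρ).invariants := by
    intro q
    rw [Representation.linHom_apply]
    show ρ q ∘ₗ π ∘ₗ ρ q⁻¹ = π
    rw [← LinearMap.comp_assoc, ← hπ, LinearMap.comp_assoc]
    have : ρ q ∘ₗ ρ q⁻¹ = LinearMap.id := by
      show ρ q * ρ q⁻¹ = 1
      rw [← map_mul, mul_inv_cancel, map_one]
    rw [this, LinearMap.comp_id]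
  have hli : LinearIndependent k ![(LinearMap.id : (Fin n → k) →ₗ[k] (Fin n → k)), π] := by
    rw [LinearIndependent.pair_iff]
    intro s t hst
    have h2 : ∀ x, s • x + t • π x = 0 := by
      intro x
      have := congrArg (fun y : (Fin n → k) →ₗ[k] (Fin n → k) => y x) hst
      exact this
    obtain ⟨a, ha, ha0⟩ := Submodule.exists_mem_ne_zero_of_ne_bot h0
    have hW'0 : W' ≠ ⊥ := by
      intro h
      have := hc.sup_eq_top
      rw [h, sup_bot_eq] at this
      exact h1 this
    obtain ⟨b, hb, hb0⟩ := Submodule.exists_mem_ne_zero_of_ne_bot hW'0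
    have hs : s = 0 := by
      have := h2 b
      rw [hπ2 b hb, smul_zero, add_zero] at this
      exact (smul_eq_zero.1 this).resolve_right hb0
    refine ⟨hs, ?_⟩
    have := h2 a
    rw [hπ1 a ha, hs, zero_smul, zero_add] at this
    exact (smul_eq_zero.1 this).resolve_right ha0
  have h5 : Submodule.span k (Set.range ![(LinearMap.id : (Fin n → k) →ₗ[k] (Fin n → k)), π]) ≤
      (Representation.linHom ρ ρ).invariants := by
    rw [Submodule.span_le]
    rintro _ ⟨i, rfl⟩
    fin_cases i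
    · exact hid
    · exact hmem
  have h6 := Submodule.finrank_mono h5
  rw [finrank_span_eq_card hli] at h6
  simpa using h6

end fin

end Pool.Agent.Y801.LG
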